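import Pool.Agent.R742.EG.Defs

/-!
# Basic facts: prefixes, limits of lists, reachability
-/

set_option autoImplicit false

namespace Pool.Agent.R742.EG

open SimpleGraph

theorem pre_succ {α : Type} (a : ℕ → α) (n : ℕ) : pre a (n + 1) = pre a n ++ [a n] := by
  simp [pre, List.range_succ]

theorem pre_length {α : Type} (a : ℕ → α) (n : ℕ) : (pre a n).length = n := by simp [pre]

theorem pre_prefix {α : Type} (a : ℕ → α) {m n : ℕ} (h : m ≤ n) : pre a m <+: pre a n := by
  induction n with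
  | zero => obtain rfl : m = 0 := by omega
            exact List.prefix_refl _
  | succ n ih =>
    rcases Nat.lt_or_ge m (n + 1) with h1 | h1
    · exact (ih (by omega)).trans (by rw [pre_succ]; exact List.prefix_append _ _)
    · obtain rfl : m = n + 1 := by omega
      exact List.prefix_refl _

theorem prefix_pre {α : Type} (a : ℕ → α) {n : ℕ} {l : List α} (h : l <+: pre a n) :
    l = pre a l.length := by
  have h1 : l.length ≤ n := by simpa [pre_length] using h.length_le
  have h2 := pre_prefix a h1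
  exact List.IsPrefix.eq_of_length (List.prefix_of_prefix_length_le h h2 (by simp [pre_length]))
    (by simp [pre_length])

/-- limits of increasing sequences of lists -/
theorem exists_limit {α : Type} [Nonempty α] (L : ℕ → List α) (hL : ∀ n, L n <+: L (n + 1)) :
    ∃ a : ℕ → α, ∀ n, pre a (L n).length = L n := by
  classical
  obtain ⟨d⟩ := ‹Nonempty α›
  have hmono : ∀ m n, m ≤ n → L m <+: L n := by
    intro m n h
    induction n with
    | zero => obtain rfl : m = 0 := by omega
              exact List.prefix_refl _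
    | succ n ih =>
      rcases Nat.lt_or_ge m (n + 1) with h1 | h1
      · exact (ih (by omega)).trans (hL n)
      · obtain rfl : m = n + 1 := by omega
        exact List.prefix_refl _
  let a : ℕ → α := fun i => if h : ∃ n, i < (L n).length then (L (Nat.find h)).getD i d else d
  refine ⟨a, fun n => ?_⟩
  apply List.ext_getElem
  · simp [pre_length]
  · intro i h1 h2
    have hex : ∃ n, i < (L n).length := ⟨n, h2⟩
    have h3 : (pre a (L n).length)[i] = a i := by simp [pre]
    rw [h3]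
    have h4 : a i = (L (Nat.find hex)).getD i d := dif_pos hex
    have h5 : i < (L (Nat.find hex)).length := Nat.find_spec hex
    have h6 : L (Nat.find hex) <+: L n := hmono _ _ (Nat.find_min' hex h2)
    rw [h4, List.getD_eq_getElem _ _ h5]
    exact h6.getElem h5

/-! ### reachability -/

/-- the component of `v` as a set -/
def comp (G : SimpleGraph ℕ) (v : ℕ) : Set ℕ := {w | G.Reachable v w}

theorem mem_comp_self (G : SimpleGraph ℕ) (v : ℕ) : v ∈ comp G v := Reachable.refl v

theorem comp_eq_of_mem {G : SimpleGraph ℕ} {v w : ℕ} (h : w ∈ comp G v) : comp G w = comp G v := by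
  ext x
  exact ⟨fun hx => Reachable.trans h hx, fun hx => Reachable.trans (Reachable.symm h) hx⟩

/-- edges of `G` inside `U` -/
def res (G : SimpleGraph ℕ) (U : Set ℕ) : SimpleGraph ℕ where
  Adj x y := G.Adj x y ∧ x ∈ U ∧ y ∈ U
  symm := ⟨fun _ _ h => ⟨h.1.symm, h.2.2, h.2.1⟩⟩
  loopless := ⟨fun _ h => h.1.ne rfl⟩

@[simp] theorem res_adj {G : SimpleGraph ℕ} {U : Set ℕ} {x y : ℕ} :
    (res G U).Adj x y ↔ G.Adj x y ∧ x ∈ U ∧ y ∈ U := Iff.rfl

/-- `U` is connected in `G` by edges inside `U` -/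
def Conn (G : SimpleGraph ℕ) (U : Set ℕ) : Prop := ∀ x ∈ U, ∀ y ∈ U, (res G U).Reachable x y

theorem reach_of {G H : SimpleGraph ℕ} (h : ∀ a b, G.Adj a b → H.Reachable a b) {x y : ℕ}
    (hxy : G.Reachable x y) : H.Reachable x y := by
  obtain ⟨p⟩ := hxy
  induction p with
  | nil => exact Reachable.refl _
  | cons hadj _ ih => exact (h _ _ hadj).trans ih

theorem reach_ind {G : SimpleGraph ℕ} {x : ℕ} {P : ℕ → Prop} (h0 : P x)
    (hs : ∀ a b, G.Reachable x a → P a → G.Adj a b → P b) {y : ℕ} (hxy : G.Reachable x y) : P y := by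
  have key : ∀ {a b : ℕ} (p : G.Walk a b), G.Reachable x a → P a → P b := by
    intro a b p
    induction p with
    | nil => exact fun _ h => h
    | cons hadj _ ih => exact fun hr h => ih (hr.trans hadj.reachable) (hs _ _ hr h hadj)
  obtain ⟨p⟩ := hxy
  exact key p (Reachable.refl _) h0

theorem reach_mono {G H : SimpleGraph ℕ} (h : ∀ a b, G.Adj a b → H.Adj a b) {x y : ℕ}
    (hxy : G.Reachable x y) : H.Reachable x y := reach_of (fun a b hab => (h a b hab).reachable) hxy

theorem Conn.mono {G H : SimpleGraph ℕ} {U : Set ℕ} (h : Conn G U) (hGH : G ≤ H) : Conn H U :=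
  fun x hx y hy => reach_mono (G := res G U) (H := res H U)
    (fun _ _ hab => ⟨hGH hab.1, hab.2⟩) (h x hx y hy)

theorem conn_congr {G H : SimpleGraph ℕ} {U : Set ℕ}
    (h : ∀ x ∈ U, ∀ y ∈ U, G.Adj x y → H.Adj x y) (hG : Conn G U) : Conn H U :=
  fun x hx y hy => reach_mono (G := res G U) (H := res H U)
    (fun _ _ hab => ⟨h _ hab.2.1 _ hab.2.2 hab.1, hab.2⟩) (hG x hx y hy)

theorem Conn.reach {G : SimpleGraph ℕ} {U : Set ℕ} (h : Conn G U) {x y : ℕ} (hx : x ∈ U)
    (hy : y ∈ U) : G.Reachable x y := reach_mono (G := res G U) (fun _ _ hab => hab.1) (h x hx y hy)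

theorem Conn.subset_comp {G : SimpleGraph ℕ} {U : Set ℕ} (h : Conn G U) {x : ℕ} (hx : x ∈ U) :
    U ⊆ comp G x := fun _ hy => h.reach hx hy

/-- one more edge -/
theorem reach_add {G H : SimpleGraph ℕ} {u v : ℕ} (hH : ∀ a b, H.Adj a b → G.Adj a b ∨
    (a = u ∧ b = v) ∨ (a = v ∧ b = u)) {x y : ℕ} (h : H.Reachable x y) :
    G.Reachable x y ∨ (G.Reachable x u ∧ G.Reachable v y) ∨ (G.Reachable x v ∧ G.Reachable u y) := by
  refine reach_ind (P := fun y => G.Reachable x y ∨ (G.Reachable x u ∧ G.Reachable v y) ∨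
    (G.Reachable x v ∧ G.Reachable u y)) (Or.inl (Reachable.refl _)) ?_ h
  intro a b _ ha hab
  rcases hH a b hab with h1 | ⟨rfl, rfl⟩ | ⟨rfl, rfl⟩
  · rcases ha with h2 | ⟨h2, h3⟩ | ⟨h2, h3⟩
    · exact Or.inl (h2.trans h1.reachable)
    · exact Or.inr (Or.inl ⟨h2, h3.trans h1.reachable⟩)
    · exact Or.inr (Or.inr ⟨h2, h3.trans h1.reachable⟩)
  · rcases ha with h2 | ⟨h2, h3⟩ | ⟨h2, h3⟩
    · exact Or.inr (Or.inl ⟨h2, Reachable.refl _⟩)
    · exact Or.inr (Or.inl ⟨h2, Reachable.refl _⟩)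
    · exact Or.inl h2
  · rcases ha with h2 | ⟨h2, h3⟩ | ⟨h2, h3⟩
    · exact Or.inr (Or.inr ⟨h2, Reachable.refl _⟩)
    · exact Or.inl h2
    · exact Or.inr (Or.inr ⟨h2, Reachable.refl _⟩)

/-- removal of one edge, as a graph -/
def del (G : SimpleGraph ℕ) (u v : ℕ) : SimpleGraph ℕ where
  Adj x y := G.Adj x y ∧ s(x, y) ≠ s(u, v)
  symm := ⟨fun x y h => ⟨h.1.symm, by rw [Sym2.eq_swap]; exact h.2⟩⟩
  loopless := ⟨fun _ h => h.1.ne rfl⟩

@[simp] theorem del_adj {G : SimpleGraph ℕ} {u v x y : ℕ} :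
    (del G u v).Adj x y ↔ G.Adj x y ∧ s(x, y) ≠ s(u, v) := Iff.rfl

theorem del_swap (G : SimpleGraph ℕ) (u v : ℕ) : del G u v = del G v u := by
  ext x y
  simp only [del_adj]
  rw [Sym2.eq_swap (a := u)]

/-- acyclic graphs: the ends of an edge are not connected after its removal -/
theorem not_reach_del {G : SimpleGraph ℕ} (hG : G.IsAcyclic) {u v : ℕ} (h : G.Adj u v) :
    ¬ (del G u v).Reachable u v := by
  intro hr
  have h1 := isAcyclic_iff_forall_adj_isBridge.1 hG h
  rw [isBridge_iff] at h1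
  exact h1 (reach_mono (fun a b hab => by
    rw [SimpleGraph.deleteEdges_adj]
    exact ⟨hab.1, fun hc => hab.2 hc⟩) hr)

end Pool.Agent.R742.EG
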