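import Pool.Agent.R742.EG.Basic

/-!
# Block functions and the class of good graphs
-/

set_option autoImplicit false

namespace Pool.Agent.R742.EG

open SimpleGraph

/-- block functions: the `k`-th block has `2k+6` or `2k+7` elements -/
def Good (f : ℕ → ℕ) : Prop := ∀ k, (f ⁻¹' {k}).ncard = 2 * k + 6 ∨ (f ⁻¹' {k}).ncard = 2 * k + 7

theorem Good.finite {f : ℕ → ℕ} (hf : Good f) (k : ℕ) : (f ⁻¹' {k}).Finite :=
  Set.finite_of_ncard_ne_zero (by rcases hf k with h | h <;> omega)

theorem Good.nonempty {f : ℕ → ℕ} (hf : Good f) (k : ℕ) : (f ⁻¹' {k}).Nonempty :=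
  Set.nonempty_of_ncard_ne_zero (by rcases hf k with h | h <;> omega)

theorem Good.lt_finite {f : ℕ → ℕ} (hf : Good f) (K : ℕ) : {v | f v < K}.Finite := by
  induction K with
  | zero => simp
  | succ K ih =>
    refine (ih.union (hf.finite K)).subset fun v hv => ?_
    rcases Nat.lt_or_ge (f v) K with h | h
    · exact Or.inl h
    · right
      simp only [Set.mem_setOf_eq] at hv
      simp only [Set.mem_preimage, Set.mem_singleton_iff]
      omega

theorem Good.card_lt {f : ℕ → ℕ} (hf : Good f) (K : ℕ) :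
    {v | f v < K}.ncard = ∑ k ∈ Finset.range K, (f ⁻¹' {k}).ncard := by
  induction K with
  | zero => simp
  | succ K ih =>
    rw [Finset.sum_range_succ, ← ih, ← Set.ncard_union_eq _ (hf.lt_finite K) (hf.finite K)]
    · congr 1
      ext v
      simp only [Set.mem_setOf_eq, Set.mem_union, Set.mem_preimage, Set.mem_singleton_iff]
      omega
    · rw [Set.disjoint_left]
      intro v hv hv'
      simp only [Set.mem_setOf_eq] at hv
      simp only [Set.mem_preimage, Set.mem_singleton_iff] at hv'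
      omega

theorem good_shift {f g : ℕ → ℕ} (hf : Good f) (hg : Good g) {k0 : ℕ}
    (h : ∀ u v, g u = g v → k0 ≤ g u → f u = f v) {v : ℕ} (hv : k0 ≤ g v) : f v = g v := by
  have h1 : ∀ w, k0 ≤ g w → g w ≤ f w := by
    intro w hw
    have h2 : g ⁻¹' {g w} ⊆ f ⁻¹' {f w} := by
      intro x hx
      simp only [Set.mem_preimage, Set.mem_singleton_iff] at hx ⊢
      exact h x w hx (by omega)
    have h3 := Set.ncard_le_ncard h2 (hf.finite _)
    rcases hf (f w) with h4 | h4 <;> rcases hg (g w) with h5 | h5 <;> omega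
  by_contra hne
  have hlt : g v < f v := lt_of_le_of_ne (h1 v hv) fun hc => hne hc.symm
  have hsub : {w | f w < g v + 1} ⊆ {w | g w < g v} := by
    intro w hw
    simp only [Set.mem_setOf_eq] at hw ⊢
    by_contra hc
    push Not at hc
    have h2 := h1 w (by omega)
    have h3 : g w = g v := by omega
    have h4 := h w v h3 (by omega)
    omega
  have hle := Set.ncard_le_ncard hsub (hg.lt_finite _)
  rw [hf.card_lt, hg.card_lt, Finset.sum_range_succ] at hle
  have h2 : ∑ k ∈ Finset.range (g v), (2 * k + 6) ≤ ∑ k ∈ Finset.range (g v), (f ⁻¹' {k}).ncard :=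
    Finset.sum_le_sum fun k _ => by rcases hf k with h | h <;> omega
  have h3 : ∑ k ∈ Finset.range (g v), (g ⁻¹' {k}).ncard ≤ ∑ k ∈ Finset.range (g v), (2 * k + 7) :=
    Finset.sum_le_sum fun k _ => by rcases hg k with h | h <;> omega
  have h4 : ∑ k ∈ Finset.range (g v), (2 * k + 7) = ∑ k ∈ Finset.range (g v), (2 * k + 6) + g v := by
    rw [show (fun k => 2 * k + 7) = fun k => (2 * k + 6) + 1 from rfl, Finset.sum_add_distrib]
    simp
  rcases hf (g v) with h5 | h5 <;> omega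

/-- for large indices the blocks of `f` and of `g` are the same -/
theorem good_eventually {f g : ℕ → ℕ} (hf : Good f) (hg : Good g) {k0 : ℕ}
    (h : ∀ u v, g u = g v → k0 ≤ g u → f u = f v) : ∃ k1, ∀ v, (k1 ≤ f v → g v = f v) ∧
      (k1 ≤ g v → f v = g v) := by
  obtain ⟨m, hm⟩ := ((hg.lt_finite k0).image f).bddAbove
  refine ⟨max k0 (m + 1), fun v => ⟨fun hv => ?_, fun hv => ?_⟩⟩
  · by_contra hne
    have h1 : g v < k0 := by
      by_contra hc
      exact hne (good_shift hf hg h (not_lt.1 hc)).symm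
    have h2 : f v ≤ m := hm ⟨v, h1, rfl⟩
    omega
  · exact good_shift hf hg h (by omega)

/-- near saturated graphs -/
def NS (G : SimpleGraph ℕ) : Prop := ∃ g, Good g ∧ ∃ k0, ∀ k, k0 ≤ k → Conn G (g ⁻¹' {k})

/-- graphs all of whose edges are inside the blocks of some block function -/
def KK (G : SimpleGraph ℕ) : Prop := ∃ f, Good f ∧ ∀ u v, G.Adj u v → f u = f v

/-- `D` contains two disjoint connected sets with at least three elements -/
def Fat (G : SimpleGraph ℕ) (D : Set ℕ) : Prop :=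
  ∃ A B : Set ℕ, A ⊆ D ∧ B ⊆ D ∧ Disjoint A B ∧ 3 ≤ A.ncard ∧ 3 ≤ B.ncard ∧ Conn G A ∧ Conn G B

/-- all but finitely many blocks are components, fat, and trees -/
def Tame (G : SimpleGraph ℕ) : Prop := ∃ g, Good g ∧ ∃ k0, ∀ k, k0 ≤ k →
  Conn G (g ⁻¹' {k}) ∧ Fat G (g ⁻¹' {k}) ∧ (∀ u v, G.Adj u v → g u = k → g v = k) ∧
    ∀ u v, G.Adj u v → g u = k → ¬ (res (del G u v) (g ⁻¹' {k})).Reachable u v

theorem Tame.ns {G : SimpleGraph ℕ} (h : Tame G) : NS G := by
  obtain ⟨g, hg, k0, hk⟩ := h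
  exact ⟨g, hg, k0, fun k hk' => (hk k hk').1⟩

theorem NS.mono {G H : SimpleGraph ℕ} (h : NS G) (hGH : G ≤ H) : NS H := by
  obtain ⟨g, hg, k0, hk⟩ := h
  exact ⟨g, hg, k0, fun k hk' => (hk k hk').mono hGH⟩

theorem KK.mono {G H : SimpleGraph ℕ} (h : KK H) (hGH : G ≤ H) : KK G := by
  obtain ⟨f, hf, hk⟩ := h
  exact ⟨f, hf, fun u v huv => hk u v (hGH huv)⟩

theorem const_on_conn {G : SimpleGraph ℕ} {f : ℕ → ℕ} (hf : ∀ u v, G.Adj u v → f u = f v) {x y : ℕ}
    (h : G.Reachable x y) : f x = f y :=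
  reach_ind (P := fun y => f x = f y) rfl (fun a b _ ha hab => ha.trans (hf a b hab)) h

/-- the two graphs have the same edges up to finitely many -/
def FinDiff (G H : SimpleGraph ℕ) : Prop := ∃ F : Set ℕ, F.Finite ∧
  ∀ u v, u ∉ F → (G.Adj u v ↔ H.Adj u v)

theorem FinDiff.refl (G : SimpleGraph ℕ) : FinDiff G G := ⟨∅, Set.finite_empty, fun _ _ _ => Iff.rfl⟩

theorem FinDiff.symm {G H : SimpleGraph ℕ} (h : FinDiff G H) : FinDiff H G := by
  obtain ⟨F, hF, h⟩ := h
  exact ⟨F, hF, fun u v hu => (h u v hu).symm⟩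

theorem FinDiff.trans {G H K : SimpleGraph ℕ} (h : FinDiff G H) (h' : FinDiff H K) :
    FinDiff G K := by
  obtain ⟨F, hF, h⟩ := h
  obtain ⟨F', hF', h'⟩ := h'
  refine ⟨F ∪ F', hF.union hF', fun u v hu => ?_⟩
  rw [Set.mem_union, not_or] at hu
  exact (h u v hu.1).trans (h' u v hu.2)

end Pool.Agent.R742.EG
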