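import Mathlib

/-!
# Elusiveness games for graph properties on `ℕ`
-/

set_option autoImplicit false

namespace Pool.Agent.R742.EG

/-- the first `n` values of a sequence, as a list -/
def pre {α : Type} (a : ℕ → α) (n : ℕ) : List α := (List.range n).map a

/-- legal sequence of picks of Seeker: pairs of distinct numbers, each still white when picked -/
def Legal (q : ℕ → Sym2 ℕ) : Prop := (∀ n, ¬ (q n).IsDiag) ∧ Function.Injective q

/-- the set `G_∞` of pairs coloured green (`true` means green, `false` means red) -/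
def greenSet (q : ℕ → Sym2 ℕ) (a : ℕ → Bool) : Set (Sym2 ℕ) := {e | ∃ n, q n = e ∧ a n = true}

/-- the set `W_∞` of pairs that stay white forever -/
def whiteSet (q : ℕ → Sym2 ℕ) : Set (Sym2 ℕ) := {e | ¬ e.IsDiag ∧ ∀ n, q n ≠ e}

/-- isomorphism-invariance of a set of graphs on `ℕ` -/
def IsGraphProperty (S : Set (SimpleGraph ℕ)) : Prop :=
  ∀ (π : Equiv.Perm ℕ) (G : SimpleGraph ℕ), G ∈ S → G.map π.toEmbedding ∈ S

/-- monotonicity -/
def IsMonotoneProperty (S : Set (SimpleGraph ℕ)) : Prop :=
  ∀ G H : SimpleGraph ℕ, G ∈ S → G ≤ H → H ∈ S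

/-- Seeker wins the run with picks `q` and colours `a`: some pair stays white, and either all
graphs between `G_∞` and `G_∞ ∪ W_∞` belong to `S` or none of them does -/
def SeekerWinsRun (S : Set (SimpleGraph ℕ)) (q : ℕ → Sym2 ℕ) (a : ℕ → Bool) : Prop :=
  (whiteSet q).Nonempty ∧
    ((∀ H : SimpleGraph ℕ, greenSet q a ⊆ H.edgeSet →
        H.edgeSet ⊆ greenSet q a ∪ whiteSet q → H ∈ S) ∨
     (∀ H : SimpleGraph ℕ, greenSet q a ⊆ H.edgeSet →
        H.edgeSet ⊆ greenSet q a ∪ whiteSet q → H ∉ S))

/-- the history of the first `n` turns -/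
def hist (q : ℕ → Sym2 ℕ) (a : ℕ → Bool) (n : ℕ) : List (Sym2 ℕ × Bool) :=
  pre (fun i => (q i, a i)) n

/-- Seeker has a winning strategy in `G(S)`: a function of the history giving the next pick, such
that in every run in which Seeker follows it all picks are legal and Seeker wins -/
def SeekerHasWinningStrategy (S : Set (SimpleGraph ℕ)) : Prop :=
  ∃ σ : List (Sym2 ℕ × Bool) → Sym2 ℕ, ∀ (q : ℕ → Sym2 ℕ) (a : ℕ → Bool),
    (∀ n, q n = σ (hist q a n)) → Legal q ∧ SeekerWinsRun S q a

/-- Hider has a winning strategy in `G(S)`: a function of the history and of the pair just picked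
giving its colour, such that Seeker does not win any legal run in which Hider follows it -/
def HiderHasWinningStrategy (S : Set (SimpleGraph ℕ)) : Prop :=
  ∃ τ : List (Sym2 ℕ × Bool) → Sym2 ℕ → Bool, ∀ (q : ℕ → Sym2 ℕ) (a : ℕ → Bool),
    Legal q → (∀ n, a n = τ (hist q a n) (q n)) → ¬ SeekerWinsRun S q a

/-- `G(S)` is determined -/
def Determined (S : Set (SimpleGraph ℕ)) : Prop :=
  SeekerHasWinningStrategy S ∨ HiderHasWinningStrategy S

/-- auxiliary form: the next pick is a function of the previous answers of Hider -/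
def SeekerAns (S : Set (SimpleGraph ℕ)) : Prop :=
  ∃ σ : List Bool → Sym2 ℕ, ∀ a : ℕ → Bool,
    Legal (fun n => σ (pre a n)) ∧ SeekerWinsRun S (fun n => σ (pre a n)) a

/-- auxiliary form: the colour is a function of the list of all picks made so far -/
def HiderPicks (S : Set (SimpleGraph ℕ)) : Prop :=
  ∃ τ : List (Sym2 ℕ) → Bool, ∀ q : ℕ → Sym2 ℕ, Legal q →
    ¬ SeekerWinsRun S q (fun n => τ (pre q (n + 1)))

end Pool.Agent.R742.EG
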