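import Pool.Agent.R742.EG.Main

/-!
# Strategies depending on the whole history
-/

set_option autoImplicit false

namespace Pool.Agent.R742.EG

theorem seekerAns_of {S : Set (SimpleGraph ℕ)} (h : SeekerHasWinningStrategy S) :
    SeekerAns S := by
  obtain ⟨σ, hσ⟩ := h
  let H : List Bool → List (Sym2 ℕ × Bool) := fun l => l.foldl (fun acc b => acc ++ [(σ acc, b)]) []
  have hH : ∀ l b, H (l ++ [b]) = H l ++ [(σ (H l), b)] := fun l b => by
    simp only [H, List.foldl_append, List.foldl_cons, List.foldl_nil]
  refine ⟨fun l => σ (H l), fun a => hσ _ a fun n => ?_⟩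
  have key : ∀ n, H (pre a n) = hist (fun n => σ (H (pre a n))) a n := by
    intro n
    induction n with
    | zero => rfl
    | succ n ih =>
      rw [pre_succ, hH, hist, pre_succ, ih]
      rfl
  simp only
  rw [← key]

theorem hiderPicks_of {S : Set (SimpleGraph ℕ)} (h : HiderHasWinningStrategy S) :
    HiderPicks S := by
  obtain ⟨τ, hτ⟩ := h
  let K : List (Sym2 ℕ) → List (Sym2 ℕ × Bool) :=
    fun l => l.foldl (fun acc p => acc ++ [(p, τ acc p)]) []
  have hK : ∀ l p, K (l ++ [p]) = K l ++ [(p, τ (K l) p)] := fun l p => by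
    simp only [K, List.foldl_append, List.foldl_cons, List.foldl_nil]
  let t : List (Sym2 ℕ) → Bool := fun L => match L.getLast? with
    | none => true
    | some p => τ (K L.dropLast) p
  have ht : ∀ l p, t (l ++ [p]) = τ (K l) p := by
    intro l p
    simp [t]
  refine ⟨t, fun q hq => hτ q _ hq fun n => ?_⟩
  have key : ∀ n, K (pre q n) = hist q (fun n => t (pre q (n + 1))) n := by
    intro n
    induction n with
    | zero => rfl
    | succ n ih =>
      rw [pre_succ, hK, hist, pre_succ]
      rw [pre_succ, ht, ih]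
      rfl
  rw [← key, pre_succ, ht]

theorem not_determined : ∃ S : Set (SimpleGraph ℕ), IsGraphProperty S ∧ IsMonotoneProperty S ∧
    ¬ Determined S := by
  obtain ⟨S, h1, h2, h3, h4⟩ := main
  refine ⟨S, h1, h2, ?_⟩
  rintro (h | h)
  · exact h3 (seekerAns_of h)
  · exact h4 (hiderPicks_of h)

end Pool.Agent.R742.EG
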