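import Pool.Agent.R742.EG.PartA

/-!
# Hider's policy and its invariants
-/

set_option autoImplicit false

namespace Pool.Agent.R742.EG

open SimpleGraph

variable {σ : List Bool → Sym2 ℕ} {f : ℕ → ℕ} {h : ℕ → Bool}

/-- the part of a block which matters for the pair `u v` -/
def Un (f : ℕ → ℕ) (h : ℕ → Bool) (u v : ℕ) : Set ℕ := {w | f w = f u ∧ (h u = h v → h w = h u)}

/-- condition for a green answer -/
def Cond (σ : List Bool → Sym2 ℕ) (f : ℕ → ℕ) (h : ℕ → Bool) (l : List Bool) (u v : ℕ) : Prop :=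
  f u = f v ∧ ¬ (res (del (HA σ l) u v) (Un f h u v)).Reachable u v

theorem cond_symm {l : List Bool} {u v : ℕ} (hc : Cond σ f h l u v) : Cond σ f h l v u := by
  obtain ⟨h1, h2⟩ := hc
  refine ⟨h1.symm, fun h3 => h2 ?_⟩
  refine (reach_mono (fun a b hab => ?_) h3).symm
  obtain ⟨h4, h5, h6⟩ := hab
  rw [del_swap] at h4
  refine ⟨h4, ⟨h5.1.trans h1.symm, fun hh => ?_⟩, ⟨h6.1.trans h1.symm, fun hh => ?_⟩⟩
  · rw [h5.2 hh.symm, hh]
  · rw [h6.2 hh.symm, hh]

open Classical in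
noncomputable def pol (σ : List Bool → Sym2 ℕ) (f : ℕ → ℕ) (h : ℕ → Bool) (l : List Bool) : Bool :=
  decide (∃ u v, σ l = s(u, v) ∧ Cond σ f h l u v)

theorem pol_true {l : List Bool} {u v : ℕ} (hl : σ l = s(u, v)) :
    pol σ f h l = true ↔ Cond σ f h l u v := by
  unfold pol
  simp only [decide_eq_true_eq]
  constructor
  · rintro ⟨u', v', h1, h2⟩
    rw [hl, Sym2.eq_iff] at h1
    rcases h1 with ⟨rfl, rfl⟩ | ⟨rfl, rfl⟩
    · exact h2
    · exact cond_symm h2
  · exact fun hc => ⟨u, v, hl, hc⟩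

structure Inv (σ : List Bool → Sym2 ℕ) (f : ℕ → ℕ) (h : ℕ → Bool) (l : List Bool) : Prop where
  cb : ∀ k, Conn (HA σ l) (f ⁻¹' {k})
  ch : ∀ k b, Conn (HA σ l) (f ⁻¹' {k} ∩ h ⁻¹' {b})
  gb : ∀ u v, (GA σ l).Adj u v → f u = f v
  gc : ∀ u v, (GA σ l).Adj u v → h u ≠ h v → ∀ x y, f x = f u → f y = f u → h x ≠ h y →
    (HA σ l).Adj x y → s(x, y) = s(u, v)
  sf : SafeA σ l

theorem conn_del {H : SimpleGraph ℕ} {U : Set ℕ} {u v : ℕ} (hU : Conn H U)
    (hr : u ∈ U → v ∈ U → (res (del H u v) U).Reachable u v) : Conn (del H u v) U := by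
  intro x hx y hy
  refine reach_of (G := res H U) (H := res (del H u v) U) (fun a b hab => ?_) (hU x hx y hy)
  by_cases hc : s(a, b) = s(u, v)
  · rw [Sym2.eq_iff] at hc
    rcases hc with ⟨rfl, rfl⟩ | ⟨rfl, rfl⟩
    · exact hr hab.2.1 hab.2.2
    · exact (hr hab.2.2 hab.2.1).symm
  · exact Adj.reachable ⟨⟨hab.1, hc⟩, hab.2⟩

theorem half_reach {l : List Bool} (hI : Inv σ f h l) {u v x y : ℕ} (huv : h u ≠ h v)
    (hfx : f x = f u) (hfy : f y = f u) (hh : h x = h y) :
    (res (del (HA σ l) u v) (Un f h u v)).Reachable x y := by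
  refine reach_mono (G := res (HA σ l) (f ⁻¹' {f u} ∩ h ⁻¹' {h x})) (fun a b hab => ?_)
    (hI.ch (f u) (h x) x ⟨hfx, rfl⟩ y ⟨hfy, hh.symm⟩)
  obtain ⟨h1, h2, h3⟩ := hab
  have h4 : h a = h x := h2.2
  have h5 : h b = h x := h3.2
  refine ⟨⟨h1, fun hc => ?_⟩, ⟨h2.1, fun hc => absurd hc huv⟩, ⟨h3.1, fun hc => absurd hc huv⟩⟩
  rw [Sym2.eq_iff] at hc
  rcases hc with ⟨rfl, rfl⟩ | ⟨rfl, rfl⟩
  · exact huv (h4.trans h5.symm)
  · exact huv (h5.trans h4.symm)

/-- a green cross pair is the only remaining one -/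
theorem cross_unique {l : List Bool} (hI : Inv σ f h l) {u v : ℕ} (hc : Cond σ f h l u v)
    (huv : h u ≠ h v) {x y : ℕ} (hfx : f x = f u) (hfy : f y = f u) (hxy : h x ≠ h y)
    (hadj : (HA σ l).Adj x y) : s(x, y) = s(u, v) := by
  by_contra hne
  apply hc.2
  have hcases : (h x = h u ∧ h y = h v) ∨ (h x = h v ∧ h y = h u) := by
    cases hx : h x <;> cases hy : h y <;> cases hu : h u <;> cases hv : h v <;> simp_all
  have hmem : ∀ w, f w = f u → w ∈ Un f h u v := fun w hw => ⟨hw, fun hc => absurd hc huv⟩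
  have hstep : (res (del (HA σ l) u v) (Un f h u v)).Adj x y := ⟨⟨hadj, hne⟩, hmem x hfx, hmem y hfy⟩
  rcases hcases with ⟨h1, h2⟩ | ⟨h1, h2⟩
  · exact ((half_reach hI huv rfl hfx h1.symm).trans hstep.reachable).trans
      (half_reach hI huv hfy hc.1.symm h2)
  · exact ((half_reach hI huv rfl hfy h2.symm).trans hstep.symm.reachable).trans
      (half_reach hI huv hfx hc.1.symm h1)

theorem green_notred (hσ : LegalS σ) {l : List Bool} {a b : ℕ} (hab : (GA σ l).Adj a b) :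
    (HA σ l).Adj a b := by
  rw [GA_adj] at hab
  rw [HA_adj]
  exact ⟨hσ.ans_unique hab.1, hab.2⟩

/-- cut lemma -/
theorem cut (hσ : LegalS σ) {l : List Bool} (hI : Inv σ f h l) {x w : ℕ}
    (hr : (GA σ l).Reachable x w) :
    f w = f x ∧ (h w = h x → (res (GA σ l) (f ⁻¹' {f x} ∩ h ⁻¹' {h x})).Reachable x w) ∧
      (h w ≠ h x → ∃ c0 c1, (GA σ l).Adj c0 c1 ∧ h c0 = h x ∧ h c1 ≠ h x ∧ f c0 = f x ∧
        (res (GA σ l) (f ⁻¹' {f x} ∩ h ⁻¹' {h x})).Reachable x c0) := by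
  refine reach_ind (P := fun w => f w = f x ∧
    (h w = h x → (res (GA σ l) (f ⁻¹' {f x} ∩ h ⁻¹' {h x})).Reachable x w) ∧
      (h w ≠ h x → ∃ c0 c1, (GA σ l).Adj c0 c1 ∧ h c0 = h x ∧ h c1 ≠ h x ∧ f c0 = f x ∧
        (res (GA σ l) (f ⁻¹' {f x} ∩ h ⁻¹' {h x})).Reachable x c0)) ?_ ?_ hr
  · exact ⟨rfl, fun _ => Reachable.refl _, fun hc => absurd rfl hc⟩
  · rintro a b _ ⟨hfa, ha1, ha2⟩ hab
    have hfab := hI.gb a b hab
    have hfb : f b = f x := hfab.symm.trans hfa
    refine ⟨hfb, fun hb => ?_, fun hb => ?_⟩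
    · by_cases ha : h a = h x
      · exact (ha1 ha).trans (Adj.reachable ⟨hab, ⟨hfa, ha⟩, ⟨hfb, hb⟩⟩)
      · obtain ⟨c0, c1, hc, hc0, hc1, hfc, hrc⟩ := ha2 ha
        have h1 := hI.gc c0 c1 hc (fun hh => hc1 (hh.symm.trans hc0)) b a (hfb.trans hfc.symm)
          (hfa.trans hfc.symm) (fun hh => ha (hh.symm.trans hb)) (green_notred hσ hab.symm)
        rw [Sym2.eq_iff] at h1
        rcases h1 with ⟨rfl, _⟩ | ⟨rfl, rfl⟩
        · exact hrc
        · exact absurd hb hc1
    · by_cases ha : h a = h x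
      · exact ⟨a, b, hab, ha, hb, hfa, ha1 ha⟩
      · exact ha2 ha

theorem safe_key (hσ : LegalS σ) {l : List Bool} (hI : Inv σ f h l) {u v : ℕ}
    (hl : σ l = s(u, v)) (huv : u ≠ v) (hc : Cond σ f h l u v) {a b : ℕ} (hab : a ≠ b)
    (hna : ¬ Asked σ l s(a, b)) (hne : s(a, b) ≠ s(u, v)) (hau : (GA σ l).Reachable a u)
    (hvb : (GA σ l).Reachable v b) : False := by
  have hnuv : ¬ Asked σ l s(u, v) := by rw [← hl]; exact hσ.not_asked l
  have hHab : (HA σ l).Adj a b := HA_adj.2 ⟨fun h1 => hna ⟨_, h1⟩, hab⟩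
  have hHuv : (HA σ l).Adj u v := HA_adj.2 ⟨fun h1 => hnuv ⟨_, h1⟩, huv⟩
  have cu := cut hσ hI hau.symm
  have cv := cut hσ hI hvb
  have hfa : f a = f u := cu.1
  have hfb : f b = f u := cv.1.trans hc.1.symm
  -- a green cross pair in the block contradicts a white cross pair
  have hcross : ∀ c0 c1, (GA σ l).Adj c0 c1 → f c0 = f u → h c0 ≠ h c1 → ∀ x y, f x = f u →
      f y = f u → h x ≠ h y → x ≠ y → ¬ Asked σ l s(x, y) → False := by
    intro c0 c1 hcc hf0 hh x y hfx hfy hxy hxy' hnxy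
    have h1 := hI.gc c0 c1 hcc hh x y (hfx.trans hf0.symm) (hfy.trans hf0.symm) hxy
      (HA_adj.2 ⟨fun h1 => hnxy ⟨_, h1⟩, hxy'⟩)
    rw [h1] at hnxy
    exact hnxy ⟨true, (GA_adj.1 hcc).1⟩
  by_cases huvh : h u = h v
  · by_cases ha : h a = h u
    · by_cases hb : h b = h v
      · -- both in the half
        apply hc.2
        have hsub : ∀ c d, (res (GA σ l) (f ⁻¹' {f u} ∩ h ⁻¹' {h u})).Adj c d →
            (res (del (HA σ l) u v) (Un f h u v)).Adj c d := by
          rintro c d ⟨h1, h2, h3⟩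
          refine ⟨⟨green_notred hσ h1, fun hcd => hnuv ?_⟩, ⟨h2.1, fun _ => h2.2⟩,
            ⟨h3.1, fun _ => h3.2⟩⟩
          rw [← hcd]
          exact ⟨true, (GA_adj.1 h1).1⟩
        have r1 := reach_mono hsub (cu.2.1 ha)
        have r2' := cv.2.1 hb
        rw [← hc.1, ← huvh] at r2'
        have r2 := reach_mono hsub r2'
        have hst : (res (del (HA σ l) u v) (Un f h u v)).Adj a b :=
          ⟨⟨hHab, hne⟩, ⟨hfa, fun _ => ha⟩, ⟨hfb, fun _ => hb.trans huvh.symm⟩⟩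
        exact (r1.trans hst.reachable).trans r2.symm
      · obtain ⟨c0, c1, h1, h2, h3, h4, _⟩ := cv.2.2 hb
        exact hcross c0 c1 h1 (h4.trans hc.1.symm) (fun hh => h3 (hh.symm.trans h2)) a b hfa hfb
          (fun hh => hb ((hh.symm.trans ha).trans huvh)) hab hna
    · obtain ⟨c0, c1, h1, h2, h3, h4, h5⟩ := cu.2.2 ha
      by_cases hb : h b = h v
      · exact hcross c0 c1 h1 h4 (fun hh => h3 (hh.symm.trans h2)) a b hfa hfb
          (fun hh => ha ((hh.trans hb).trans huvh.symm)) hab hna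
      · obtain ⟨d0, d1, h1', h2', h3', h4', h5'⟩ := cv.2.2 hb
        have h6 := hI.gc c0 c1 h1 (fun hh => h3 (hh.symm.trans h2)) d0 d1
          ((h4'.trans hc.1.symm).trans h4.symm)
          (((hI.gb d0 d1 h1').symm.trans (h4'.trans hc.1.symm)).trans h4.symm)
          (fun hh => h3' (hh.symm.trans h2')) (green_notred hσ h1')
        have h7 : c0 = d0 := by
          rw [Sym2.eq_iff] at h6
          rcases h6 with ⟨rfl, _⟩ | ⟨rfl, rfl⟩
          · rfl
          · exact absurd (h2'.trans huvh.symm) h3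
        subst h7
        apply hI.sf u v huv hnuv
        have r1 : (GA σ l).Reachable u c0 :=
          reach_mono (G := res (GA σ l) (f ⁻¹' {f u} ∩ h ⁻¹' {h u})) (fun _ _ hh => hh.1) h5
        have r2 : (GA σ l).Reachable v c0 :=
          reach_mono (G := res (GA σ l) (f ⁻¹' {f v} ∩ h ⁻¹' {h v})) (fun _ _ hh => hh.1) h5'
        exact r1.trans r2.symm
  · -- cross pair
    have ha : h a = h u := by
      by_contra ha
      obtain ⟨c0, c1, h1, h2, h3, h4, _⟩ := cu.2.2 ha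
      exact hcross c0 c1 h1 h4 (fun hh => h3 (hh.symm.trans h2)) u v rfl hc.1.symm huvh huv hnuv
    have hb : h b = h v := by
      by_contra hb
      obtain ⟨c0, c1, h1, h2, h3, h4, _⟩ := cv.2.2 hb
      exact hcross c0 c1 h1 (h4.trans hc.1.symm) (fun hh => h3 (hh.symm.trans h2)) u v rfl
        hc.1.symm huvh huv hnuv
    exact hne (cross_unique hI hc huvh hfa hfb (by rw [ha, hb]; exact huvh) hHab)

theorem Inv.step (hσ : LegalS σ) {l : List Bool} (hI : Inv σ f h l) :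
    Inv σ f h (l ++ [pol σ f h l]) := by
  obtain ⟨u, v, hl⟩ : ∃ u v, σ l = s(u, v) := by
    induction hh : σ l using Sym2.ind with
    | _ u v => exact ⟨u, v, rfl⟩
  have huv : u ≠ v := by
    have := hσ.nondiag l
    rw [hl] at this
    simpa using this
  have hnuv : ¬ Asked σ l s(u, v) := by rw [← hl]; exact hσ.not_asked l
  have hask : ∀ (b : Bool) (e : Sym2 ℕ), ¬ Asked σ (l ++ [b]) e → ¬ Asked σ l e ∧ e ≠ s(u, v) := by
    intro b e he
    refine ⟨fun ⟨c, hc⟩ => he ⟨c, ans_append.2 (Or.inl hc)⟩, fun hc => he ⟨b, ?_⟩⟩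
    rw [ans_append, hl]
    exact Or.inr ⟨hc, rfl⟩
  cases hp : pol σ f h l with
  | false =>
    have hnc : ¬ Cond σ f h l u v := by
      rw [← pol_true hl, hp]
      simp
    have hR : f u = f v → (res (del (HA σ l) u v) (Un f h u v)).Reachable u v := by
      intro hf
      by_contra hc
      exact hnc ⟨hf, hc⟩
    refine ⟨?_, ?_, ?_, ?_, ?_⟩
    · intro k
      rw [HA_append_false hl]
      refine conn_del (hI.cb k) fun hu hv => ?_
      have hu' : f u = k := hu
      have hv' : f v = k := hv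
      exact reach_mono (G := res (del (HA σ l) u v) (Un f h u v))
        (H := res (del (HA σ l) u v) (f ⁻¹' {k}))
        (fun a b hab => ⟨hab.1, hab.2.1.1.trans hu', hab.2.2.1.trans hu'⟩)
        (hR (hu'.trans hv'.symm))
    · intro k b
      rw [HA_append_false hl]
      refine conn_del (hI.ch k b) fun hu hv => ?_
      have hu' : f u = k := hu.1
      have hv' : f v = k := hv.1
      have hu2 : h u = b := hu.2
      have hv2 : h v = b := hv.2
      have huv2 : h u = h v := hu2.trans hv2.symm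
      exact reach_mono (G := res (del (HA σ l) u v) (Un f h u v))
        (H := res (del (HA σ l) u v) (f ⁻¹' {k} ∩ h ⁻¹' {b})) (fun a c hab => ⟨hab.1, ⟨hab.2.1.1.trans hu', (hab.2.1.2 huv2).trans hu2⟩,
        ⟨hab.2.2.1.trans hu', (hab.2.2.2 huv2).trans hu2⟩⟩) (hR (hu'.trans hv'.symm))
    · rw [GA_append_false]
      exact hI.gb
    · rw [GA_append_false, HA_append_false hl]
      intro a b hab hh x y hx hy hxy hadj
      exact hI.gc a b hab hh x y hx hy hxy hadj.1
    · intro a b hab hna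
      rw [GA_append_false]
      exact hI.sf a b hab (hask false _ hna).1
  | true =>
    have hc : Cond σ f h l u v := by
      rw [← pol_true hl, hp]
    have hadd := GA_append_true huv hl
    refine ⟨?_, ?_, ?_, ?_, ?_⟩
    · intro k
      rw [HA_append_true]
      exact hI.cb k
    · intro k b
      rw [HA_append_true]
      exact hI.ch k b
    · intro a b hab
      rw [hadd a b] at hab
      rcases hab with h1 | ⟨rfl, rfl⟩ | ⟨rfl, rfl⟩
      · exact hI.gb a b h1
      · exact hc.1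
      · exact hc.1.symm
    · rw [HA_append_true]
      intro a b hab hh x y hx hy hxy hadj
      rw [hadd a b] at hab
      rcases hab with h1 | ⟨rfl, rfl⟩ | ⟨rfl, rfl⟩
      · exact hI.gc a b h1 hh x y hx hy hxy hadj
      · exact cross_unique hI hc hh hx hy hxy hadj
      · rw [Sym2.eq_swap (a := a)]
        exact cross_unique hI hc (Ne.symm hh) (hx.trans hc.1.symm) (hy.trans hc.1.symm) hxy hadj
    · intro a b hab hna hr
      obtain ⟨h1, h2⟩ := hask true _ hna
      rcases reach_add (fun c d hcd => (hadd c d).1 hcd) hr with h3 | ⟨h3, h4⟩ | ⟨h3, h4⟩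
      · exact hI.sf a b hab h1 h3
      · exact safe_key hσ hI hl huv hc hab h1 h2 h3 h4
      · refine safe_key hσ hI hl huv hc (a := b) (b := a) hab.symm ?_ ?_ h4.symm h3.symm
        · rw [Sym2.eq_swap]; exact h1
        · rw [Sym2.eq_swap (a := b)]; exact h2

end Pool.Agent.R742.EG
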