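import Pool.Agent.R742.EG.PartA2

/-!
# A monotone graph property whose elusiveness game is not determined
-/

set_option autoImplicit false

namespace Pool.Agent.R742.EG

open SimpleGraph Cardinal

/-- injective choice functions for families of large sets -/
theorem exists_inj_choice {I : Type} {L : Type} (T : I → Set L) (h : ∀ i, #I ≤ #(T i)) :
    ∃ E : I → L, Function.Injective E ∧ ∀ i, E i ∈ T i := by
  classical
  obtain ⟨r, hwo, hr⟩ := exists_ord_eq I
  rcases isEmpty_or_nonempty I with hI | hI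
  · exact ⟨fun i => (hI.false i).elim, fun i => (hI.false i).elim, fun i => (hI.false i).elim⟩
  have hne : Nonempty L := by
    obtain ⟨i⟩ := hI
    have h1 : #(T i) ≠ 0 := by
      have h2 : (#I : Cardinal) ≠ 0 := mk_ne_zero_iff.2 ⟨i⟩
      exact fun h3 => h2 (le_antisymm (h3 ▸ h i) zero_le)
    obtain ⟨y⟩ := mk_ne_zero_iff.1 h1
    exact ⟨y.1⟩
  have hwf : WellFounded r := hwo.wf
  let F : ∀ i, (∀ j, r j i → L) → L := fun i ih =>
    if h : ∃ y ∈ T i, ∀ j hj, ih j hj ≠ y then Classical.choose h else Classical.choice hne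
  let E : I → L := hwf.fix F
  have hE : ∀ i, E i = F i (fun j _ => E j) := fun i => hwf.fix_eq F i
  have key : ∀ i, E i ∈ T i ∧ ∀ j, r j i → E j ≠ E i := by
    intro i
    have h1 : ∃ y ∈ T i, ∀ j, r j i → E j ≠ y := by
      by_contra hc
      push Not at hc
      have h2 : T i ⊆ E '' {j | r j i} := fun y hy => by
        obtain ⟨j, hj, hj'⟩ := hc y hy
        exact ⟨j, hj, hj'⟩
      have h3 : #(T i) ≤ #{j | r j i} := (mk_le_mk_of_subset h2).trans mk_image_le
      have h4 : #{j | r j i} < #I := card_typein_lt i hr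
      exact absurd (h i) (not_le_of_gt (h3.trans_lt h4))
    have h2 : E i = Classical.choose h1 := by
      rw [hE i]
      exact dif_pos h1
    rw [h2]
    exact ⟨(Classical.choose_spec h1).1, (Classical.choose_spec h1).2⟩
  refine ⟨E, fun i j hij => ?_, fun i => (key i).1⟩
  rcases trichotomous_of r i j with h1 | h1 | h1
  · exact absurd hij ((key j).2 i h1)
  · exact h1
  · exact absurd hij.symm ((key i).2 j h1)

/-- the quotient by isomorphism up to finitely many edges -/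
def eqvSetoid : Setoid (SimpleGraph ℕ) := ⟨Eqv, ⟨Eqv.refl, Eqv.symm, Eqv.trans⟩⟩

/-- each bit is repeated infinitely often -/
def spread (x : ℕ → Bool) : ℕ → Bool := fun k => x (Nat.unpair k).1

theorem spread_inj {x x' : ℕ → Bool} {k1 : ℕ} (h : ∀ k, k1 ≤ k → spread x k = spread x' k) :
    x = x' := by
  funext i
  have h1 := h (Nat.pair i k1) (Nat.right_le_pair i k1)
  simpa [spread] using h1

theorem bool_eq_of_toNat {b c : Bool} (h : b.toNat = c.toNat) : b = c := by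
  cases b <;> cases c <;> simp_all

theorem size_inj {G G' : SimpleGraph ℕ} {x x' : ℕ → Bool} (h : SizeOK (spread x) G)
    (h' : SizeOK (spread x') G') (he : Eqv G G') : x = x' := by
  obtain ⟨s0, hs0⟩ := sig_eqv he
  obtain ⟨k1, hk1⟩ := h.2
  obtain ⟨s1, hs1⟩ := h'.1
  refine spread_inj (k1 := max k1 (max s0 s1)) fun k hk => ?_
  obtain ⟨p, hp, hpk⟩ := hk1 k (by omega)
  have h1 : (spread x k).toNat ≤ 1 := by cases spread x k <;> simp
  have h2 := hs1 p (hs0 p hp (by omega)) (by omega)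
  have h3 : (p.1 - 6) / 2 = k := by omega
  rw [h3] at h2
  exact bool_eq_of_toNat (by omega)

theorem tame_big {G : SimpleGraph ℕ} (h : Tame G) :
    ∃ s0, ∀ v, (comp G v).Finite → s0 ≤ (comp G v).ncard → Fat G (comp G v) := by
  obtain ⟨g, hg, k0, hk⟩ := h
  refine ⟨{v | g v < k0}.ncard + 1, fun v hfin hcard => ?_⟩
  by_contra hnf
  have hsub : comp G v ⊆ {v | g v < k0} := by
    intro w hw
    by_contra hc
    have hc' : k0 ≤ g w := not_lt.1 hc
    apply hnf
    have h1 := comp_eq_block (hk (g w) hc').1 (hk (g w) hc').2.2.1 rfl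
    rw [← comp_eq_of_mem hw, h1]
    exact (hk (g w) hc').2.1
  have := Set.ncard_le_ncard hsub (hg.lt_finite k0)
  omega

/-- the parities prescribed by `x` -/
def zz (x : ℕ → Bool) : ℕ → Bool := fun s => spread x ((s - 6) / 2)

theorem parity_inj {G G' : SimpleGraph ℕ} {x x' : ℕ → Bool} (hG : Tame G) (hG' : Tame G')
    (h : ∀ v, (comp G v).Finite → Fat G (comp G v) → POK (zz x) G v)
    (h' : ∀ v, (comp G' v).Finite → Fat G' (comp G' v) → POK (zz x') G' v)
    (he : Eqv G G') : x = x' := by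
  classical
  obtain ⟨s0, hs0⟩ := sig_eqv he
  obtain ⟨s1, hs1⟩ := tame_big hG'
  obtain ⟨g, hg, k0, hk⟩ := hG
  refine spread_inj (k1 := max k0 (max s0 s1)) fun k hk' => ?_
  obtain ⟨v, hv⟩ := hg.nonempty k
  obtain ⟨h1, h2, h3, _⟩ := hk k (by omega)
  have hc := comp_eq_block h1 h3 hv
  have hfin : (comp G v).Finite := by rw [hc]; exact hg.finite k
  have hpok := h v hfin (by rw [hc]; exact h2)
  have hp : ((comp G v).ncard, decide (Odd (lv G v))) ∈ Sig G := ⟨v, hfin, rfl, by simp⟩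
  have hcard : (comp G v).ncard = 2 * k + 6 ∨ (comp G v).ncard = 2 * k + 7 := by
    rw [hc]
    exact hg k
  have hdiv : ((comp G v).ncard - 6) / 2 = k := by omega
  obtain ⟨v', hfin', hcard', hodd'⟩ := hs0 _ hp (by
    simp only
    omega)
  simp only at hcard' hodd'
  have hpok' := h' v' hfin' (hs1 v' hfin' (by omega))
  unfold POK zz at hpok hpok'
  rw [hcard', hdiv] at hpok'
  rw [hdiv] at hpok
  rw [decide_eq_true_eq] at hodd'
  have h4 : spread x k = true ↔ spread x' k = true := by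
    rw [← hpok, ← hpok', hodd']
  cases hx : spread x k <;> cases hx' : spread x' k <;> simp_all

/-! ### consequences for runs -/

theorem green_sub_GS {σ : List Bool → Sym2 ℕ} (hσ : LegalS σ) (a : ℕ → Bool) :
    greenSet (fun n => σ (pre a n)) a ⊆ (GS σ a).edgeSet := by
  rintro e ⟨n, hn, hb⟩
  unfold GS
  rw [SimpleGraph.edgeSet_fromEdgeSet]
  refine ⟨⟨n, hn, hb⟩, ?_⟩
  have := (hσ a).1 n
  simp only at this hn
  rw [hn] at this
  simpa using this

theorem not_win_of {S : Set (SimpleGraph ℕ)} {σ : List Bool → Sym2 ℕ} (hσ : LegalS σ)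
    {a : ℕ → Bool} (h1 : GS σ a ∉ S) (h2 : HS σ a ∈ S) :
    ¬ SeekerWinsRun S (fun n => σ (pre a n)) a := by
  rintro ⟨_, h | h⟩
  · apply h1
    apply h _ (green_sub_GS hσ a)
    unfold GS
    rw [SimpleGraph.edgeSet_fromEdgeSet]
    exact fun e he => Or.inl he.1
  · apply h _ ?_ ?_ h2
    · refine (green_sub_GS hσ a).trans ?_
      unfold HS
      rw [SimpleGraph.edgeSet_sup]
      exact Set.subset_union_left
    · unfold HS GS
      rw [SimpleGraph.edgeSet_sup, SimpleGraph.edgeSet_fromEdgeSet, SimpleGraph.edgeSet_fromEdgeSet]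
      rintro e (he | he)
      · exact Or.inl he.1
      · exact Or.inr he.1

/-- one more edge -/
def plus (G : SimpleGraph ℕ) (u v : ℕ) : SimpleGraph ℕ := G ⊔ SimpleGraph.edge u v

theorem plus_adj {G : SimpleGraph ℕ} {u v : ℕ} (huv : u ≠ v) {a b : ℕ} :
    (plus G u v).Adj a b ↔ G.Adj a b ∨ (a = u ∧ b = v) ∨ (a = v ∧ b = u) := by
  unfold plus
  rw [SimpleGraph.sup_adj, SimpleGraph.edge_adj]
  constructor
  · rintro (h | ⟨h, _⟩)
    · exact Or.inl h
    · exact Or.inr h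
  · rintro (h | h)
    · exact Or.inl h
    · refine Or.inr ⟨h, ?_⟩
      rcases h with ⟨rfl, rfl⟩ | ⟨rfl, rfl⟩
      · exact huv
      · exact huv.symm

theorem eqv_plus (G : SimpleGraph ℕ) {u v : ℕ} (huv : u ≠ v) : Eqv G (plus G u v) := by
  refine ⟨1, {u, v}, Set.toFinite _, fun a b ha => ?_⟩
  simp only [Set.mem_insert_iff, Set.mem_singleton_iff, not_or] at ha
  simp only [Equiv.Perm.one_apply]
  rw [plus_adj huv]
  tauto

theorem ns_of_plus {G : SimpleGraph ℕ} {u v : ℕ} (huv : u ≠ v) (h : NS (plus G u v)) : NS G := by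
  obtain ⟨g, hg, k0, hk⟩ := h
  refine ⟨g, hg, max k0 (g u + 1), fun k hk' => ?_⟩
  refine conn_congr (fun x hx y hy hxy => ?_) (hk k (by omega))
  rw [plus_adj huv] at hxy
  have hx' : g x = k := hx
  have hy' : g y = k := hy
  rcases hxy with h | ⟨rfl, rfl⟩ | ⟨rfl, rfl⟩
  · exact h
  · omega
  · omega

/-- the runs against `τ` in which only one pair stays white -/
theorem hider_run {S : Set (SimpleGraph ℕ)} (hS : IsMonotoneProperty S)
    {τ : List (Sym2 ℕ) → Bool} {q : ℕ → Sym2 ℕ} (hq : Legal q) {u v : ℕ} (huv : u ≠ v)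
    (hw : whiteSet q = {s(u, v)}) (hlose : ¬ SeekerWinsRun S q fun n => τ (pre q (n + 1))) :
    GF τ q ∉ S ∧ plus (GF τ q) u v ∈ S := by
  have hgreen : ∀ e, e ∈ (GF τ q).edgeSet ↔ e ∈ greenSet q fun n => τ (pre q (n + 1)) := by
    intro e
    unfold GF
    rw [SimpleGraph.edgeSet_fromEdgeSet]
    constructor
    · exact fun h => h.1
    · rintro ⟨n, hn, hb⟩
      refine ⟨⟨n, hn, hb⟩, ?_⟩
      have := hq.1 n
      rw [hn] at this
      simpa using this
  have hne : (whiteSet q).Nonempty := by rw [hw]; exact Set.singleton_nonempty _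
  constructor
  · intro hG
    apply hlose
    refine ⟨hne, Or.inl fun H hH _ => hS _ _ hG ?_⟩
    rw [← SimpleGraph.edgeSet_subset_edgeSet]
    exact fun e he => hH ((hgreen e).1 he)
  · by_contra hG
    apply hlose
    refine ⟨hne, Or.inr fun H _ hH hHS => hG (hS _ _ hHS ?_)⟩
    intro a b hab
    rw [plus_adj huv]
    have h1 := hH (show s(a, b) ∈ H.edgeSet from hab)
    rcases h1 with h1 | h1
    · left
      exact (hgreen _).2 h1
    · right
      rw [hw, Set.mem_singleton_iff, Sym2.eq_iff] at h1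
      exact h1

theorem mk_seq : #(ℕ → Bool) = 𝔠 := by
  simp

theorem mk_seeker : #(List Bool → Sym2 ℕ) ≤ 𝔠 := by
  have h1 : #(Sym2 ℕ) ≤ ℵ₀ := mk_le_aleph0
  have h2 : #(List Bool) = ℵ₀ := mk_eq_aleph0 _
  rw [← power_def, h2]
  calc #(Sym2 ℕ) ^ ℵ₀ ≤ ℵ₀ ^ ℵ₀ := power_le_power_right h1
    _ = 𝔠 := aleph0_power_aleph0

theorem mk_hider : #(List (Sym2 ℕ) → Bool) ≤ 𝔠 := by
  have h2 : #(List (Sym2 ℕ)) ≤ ℵ₀ := mk_le_aleph0
  rw [← power_def]
  calc #Bool ^ #(List (Sym2 ℕ)) ≤ #Bool ^ ℵ₀ := power_le_power_left (by simp) h2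
    _ = 𝔠 := by simp

theorem main : ∃ S : Set (SimpleGraph ℕ), IsGraphProperty S ∧ IsMonotoneProperty S ∧
    ¬ SeekerAns S ∧ ¬ HiderPicks S := by
  classical
  have hA : ∀ (σ : List Bool → Sym2 ℕ) (y : ℕ → Bool), (LegalS σ ∧
      ∀ a : ℕ → Bool, (whiteSet fun n => σ (pre a n)).Nonempty) →
      ∃ a, NS (HS σ a) ∧ ¬ KK (HS σ a) ∧
      (NS (GS σ a) → KK (GS σ a) ∧ Tame (GS σ a) ∧ SizeOK y (GS σ a)) :=
    fun σ y h => play_A h.1 h.2 y
  choose! pa hpa using hA
  have hB : ∀ (τ : List (Sym2 ℕ) → Bool) (z : ℕ → Bool), Safe τ →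
      ∃ q, Legal q ∧ whiteSet q = {s(0, 1)} ∧
      ∀ v, (comp (GF τ q) v).Finite → Fat (GF τ q) (comp (GF τ q) v) → POK z (GF τ q) v :=
    fun τ z h => play_safe h z
  choose! pq hpq using hB
  let I1 := {σ : List Bool → Sym2 ℕ // (LegalS σ ∧
    ∀ a : ℕ → Bool, (whiteSet fun n => σ (pre a n)).Nonempty) ∧
    ∀ x, NS (GS σ (pa σ (spread x)))}
  let I2 := {τ : List (Sym2 ℕ) → Bool // Safe τ ∧ ∀ x, Tame (GF τ (pq τ (zz x)))}
  let Q := Quotient eqvSetoid
  let cl : SimpleGraph ℕ → Q := fun G => Quotient.mk eqvSetoid G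
  have hcl : ∀ G H, cl G = cl H ↔ Eqv G H := fun G H => Quotient.eq (r := eqvSetoid)
  let T : I1 ⊕ I2 → Set Q := fun i => match i with
    | Sum.inl σ => Set.range fun x => cl (GS σ.1 (pa σ.1 (spread x)))
    | Sum.inr τ => Set.range fun x => cl (GF τ.1 (pq τ.1 (zz x)))
  have hTcard : ∀ i, #(T i) = 𝔠 := by
    rintro (σ | τ)
    · change #(Set.range fun x => cl (GS σ.1 (pa σ.1 (spread x)))) = 𝔠
      rw [mk_range_eq, mk_seq]
      intro x x' hxx
      rw [hcl] at hxx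
      exact size_inj ((hpa σ.1 _ σ.2.1).2.2 (σ.2.2 x)).2.2 ((hpa σ.1 _ σ.2.1).2.2 (σ.2.2 x')).2.2 hxx
    · change #(Set.range fun x => cl (GF τ.1 (pq τ.1 (zz x)))) = 𝔠
      rw [mk_range_eq, mk_seq]
      intro x x' hxx
      rw [hcl] at hxx
      exact parity_inj (τ.2.2 x) (τ.2.2 x') (hpq τ.1 _ τ.2.1).2.2 (hpq τ.1 _ τ.2.1).2.2 hxx
  have hIcard : #(I1 ⊕ I2) ≤ 𝔠 := by
    rw [mk_sum, lift_id, lift_id]
    have h1 : #I1 ≤ 𝔠 := (mk_subtype_le _).trans mk_seeker
    have h2 : #I2 ≤ 𝔠 := (mk_subtype_le _).trans mk_hider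
    calc #I1 + #I2 ≤ 𝔠 + 𝔠 := add_le_add h1 h2
      _ = 𝔠 := continuum_add_self
  obtain ⟨E, hEinj, hET⟩ := exists_inj_choice T fun i => by rw [hTcard i]; exact hIcard
  let B : Set (SimpleGraph ℕ) := {G | ∃ i : I1, cl G = E (Sum.inl i)}
  have hBOK : BOK B := by
    refine ⟨?_, ?_⟩
    · rintro G ⟨i, hi⟩ H hGH
      exact ⟨i, ((hcl H G).2 hGH.symm).trans hi⟩
    · rintro G ⟨i, hi⟩
      obtain ⟨x, hx⟩ := hET (Sum.inl i)
      have h1 : Eqv (GS i.1 (pa i.1 (spread x))) G := (hcl _ _).1 (hx.trans hi.symm)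
      exact tame_eqv h1 ((hpa i.1 _ i.2.1).2.2 (i.2.2 x)).2.1
  refine ⟨SB B, SB_iso hBOK, SB_mono hBOK, ?_, ?_⟩
  · rintro ⟨σ, hσ⟩
    have hleg : LegalS σ := fun a => (hσ a).1
    have hok : LegalS σ ∧ ∀ a : ℕ → Bool, (whiteSet fun n => σ (pre a n)).Nonempty :=
      ⟨hleg, fun a => (hσ a).2.1⟩
    have hH : ∀ y, HS σ (pa σ y) ∈ SB B := fun y => ⟨(hpa σ y hok).1, Or.inl (hpa σ y hok).2.1⟩
    by_cases hall : ∀ x, NS (GS σ (pa σ (spread x)))
    · let i : I1 := ⟨σ, hok, hall⟩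
      obtain ⟨x, hx⟩ := hET (Sum.inl i)
      have h1 := (hpa σ (spread x) hok).2.2 (hall x)
      refine not_win_of hleg ?_ (hH (spread x)) (hσ (pa σ (spread x))).2
      rintro ⟨_, h2 | h2⟩
      · exact h2 h1.1
      · exact h2 ⟨i, hx⟩
    · push Not at hall
      obtain ⟨x, hx⟩ := hall
      exact not_win_of hleg (fun hc => hx hc.1) (hH (spread x)) (hσ (pa σ (spread x))).2
  · rintro ⟨τ, hτ⟩
    have hmono := SB_mono hBOK
    by_cases hs : Safe τ
    · have hmem : ∀ z, GF τ (pq τ z) ∈ B := by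
        intro z
        obtain ⟨h1, h2, _⟩ := hpq τ z hs
        obtain ⟨h3, h4⟩ := hider_run hmono h1 (by decide : (0 : ℕ) ≠ 1) h2 (hτ _ h1)
        have h5 : NS (GF τ (pq τ z)) := ns_of_plus (by decide : (0 : ℕ) ≠ 1) h4.1
        by_contra hc
        exact h3 ⟨h5, Or.inr hc⟩
      let i : I2 := ⟨τ, hs, fun x => hBOK.tame _ (hmem (zz x))⟩
      obtain ⟨x, hx⟩ := hET (Sum.inr i)
      obtain ⟨j, hj⟩ := hmem (zz x)
      have h1 : E (Sum.inr i) = E (Sum.inl j) := hx.symm.trans hj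
      have h2 := hEinj h1
      simp at h2
    · obtain ⟨q, u, v, h1, huv, h2, h3⟩ := play_unsafe hs
      obtain ⟨h4, h5⟩ := hider_run hmono h1 huv h2 (hτ _ h1)
      apply h4
      refine ⟨ns_of_plus huv h5.1, ?_⟩
      rcases h5.2 with h6 | h6
      · left
        rintro ⟨f, hf, hfe⟩
        apply h6
        refine ⟨f, hf, fun a b hab => ?_⟩
        rw [plus_adj huv] at hab
        have h7 := const_on_conn hfe h3
        rcases hab with hab | ⟨rfl, rfl⟩ | ⟨rfl, rfl⟩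
        · exact hfe a b hab
        · exact h7
        · exact h7.symm
      · right
        intro hc
        exact h6 (hBOK.closed _ hc _ (eqv_plus _ huv))

end Pool.Agent.R742.EG
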