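import Pool.Agent.R742.EG.Prop

/-!
# Choosing the place where two trees are joined
-/

set_option autoImplicit false

namespace Pool.Agent.R742.EG

open SimpleGraph

theorem exists_leaf {G : SimpleGraph ℕ} (hG : G.IsAcyclic) {r : ℕ} (hfin : (comp G r).Finite)
    (h2 : 2 ≤ (comp G r).ncard) : ∃ u ∈ comp G r, (G.neighborSet u).ncard = 1 := by
  classical
  let c := G.connectedComponentMk r
  have hc : ∀ x, x ∈ c.supp ↔ x ∈ comp G r := by
    intro x
    rw [ConnectedComponent.mem_supp_iff, ConnectedComponent.eq]
    exact ⟨fun h => Reachable.symm h, fun h => Reachable.symm h⟩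
  have hset : c.supp = comp G r := Set.ext hc
  have hfin' : Finite c.supp := by rw [hset]; exact hfin
  have : Fintype c.supp := Fintype.ofFinite _
  have hnt : Nontrivial c.supp := by
    rw [hset]
    rw [Set.nontrivial_coe_sort]
    have hf : Finite (comp G r) := hfin
    exact (Set.one_lt_ncard_iff_nontrivial (s := comp G r)).1 (by omega)
  have htree := hG.isTree_connectedComponent c
  obtain ⟨⟨u, hu⟩, hdeg⟩ := IsTree.exists_vert_degree_one_of_nontrivial (V := c.supp) htree
  refine ⟨u, (hc u).1 hu, ?_⟩
  rw [Set.ncard_eq_one]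
  rw [← card_neighborFinset_eq_degree, Finset.card_eq_one] at hdeg
  obtain ⟨⟨w, hw⟩, hw'⟩ := hdeg
  refine ⟨w, ?_⟩
  ext x
  simp only [mem_neighborSet, Set.mem_singleton_iff]
  constructor
  · intro hx
    have hxc : x ∈ c.supp := (hc x).2 (Reachable.trans ((hc u).1 hu) hx.reachable)
    have h3 : (⟨x, hxc⟩ : c.supp) ∈ c.toSimpleGraph.neighborFinset ⟨u, hu⟩ := by
      rw [mem_neighborFinset]
      exact (ConnectedComponent.toSimpleGraph_adj c hu hxc).2 hx
    rw [hw'] at h3
    simpa using h3
  · rintro rfl
    have h3 : (⟨x, hw⟩ : c.supp) ∈ c.toSimpleGraph.neighborFinset ⟨u, hu⟩ := by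
      rw [hw']
      simp
    rw [mem_neighborFinset] at h3
    exact (ConnectedComponent.toSimpleGraph_adj c hu hw).1 h3

theorem exists_nonleaf {G : SimpleGraph ℕ} {r : ℕ} 
    (h3 : 3 ≤ (comp G r).ncard) : ∃ u ∈ comp G r, (G.neighborSet u).ncard ≠ 1 := by
  by_contra hcon
  push Not at hcon
  obtain ⟨r', hr'⟩ := Set.ncard_eq_one.1 (hcon r (mem_comp_self G r))
  have hadj : G.Adj r r' := by
    have : r' ∈ G.neighborSet r := by rw [hr']; rfl
    exact this
  obtain ⟨r'', hr''⟩ := Set.ncard_eq_one.1 (hcon r' hadj.reachable)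
  have h1 : r ∈ G.neighborSet r' := hadj.symm
  have h2 : r'' = r := by
    rw [hr''] at h1
    exact h1.symm
  subst h2
  have h4 : comp G r'' ⊆ {r'', r'} := by
    intro x hx
    refine reach_ind (P := fun x => x ∈ ({r'', r'} : Set ℕ)) (by simp) ?_ hx
    intro a b _ ha hab
    rcases ha with rfl | ha
    · have : b ∈ G.neighborSet a := hab
      rw [hr'] at this
      right
      exact this
    · rw [Set.mem_singleton_iff] at ha
      subst ha
      have : b ∈ G.neighborSet a := hab
      rw [hr''] at this
      left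
      exact this
  have h5 := Set.ncard_le_ncard h4 (Set.toFinite _)
  have h6 : ({r'', r'} : Set ℕ).ncard ≤ 2 :=
    (Set.ncard_insert_le _ _).trans (by rw [Set.ncard_singleton])
  omega

/-- adding the edge `n u` -/
def AddEdge (G G' : SimpleGraph ℕ) (n u : ℕ) : Prop :=
  ∀ a b, G'.Adj a b ↔ G.Adj a b ∨ (a = n ∧ b = u) ∨ (a = u ∧ b = n)

theorem comp_addEdge {G G' : SimpleGraph ℕ} {n u : ℕ} (h : AddEdge G G' n u) :
    comp G' n = comp G n ∪ comp G u := by
  ext x
  constructor
  · intro hx
    rcases reach_add (G := G) (u := n) (v := u) (fun a b hab => (h a b).1 hab) hx with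
      h1 | ⟨_, h1⟩ | ⟨h0, h1⟩
    · exact Or.inl h1
    · exact Or.inr h1
    · exact Or.inl h1
  · have hle : ∀ a b, G.Adj a b → G'.Adj a b := fun a b hab => (h a b).2 (Or.inl hab)
    rintro (hx | hx)
    · exact reach_mono hle hx
    · exact (Adj.reachable ((h n u).2 (Or.inr (Or.inl ⟨rfl, rfl⟩)))).trans (reach_mono hle hx)

theorem parity_choice {G : SimpleGraph ℕ} (hG : G.IsAcyclic) {n r : ℕ}
    (hnr : ¬ G.Reachable r n) (hX : (comp G n).Finite) (hC : (comp G r).Finite)
    (h3 : 3 ≤ (comp G r).ncard) (b : Prop) :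
    ∃ u ∈ comp G r, ∀ G', AddEdge G G' n u → (Odd (lv G' n) ↔ b) := by
  classical
  let P : Set ℕ := {w | w ∈ comp G n ∧ ((w ≠ n ∧ (G.neighborSet w).ncard = 1) ∨
    (w = n ∧ (G.neighborSet w).ncard = 0))}
  let A : Set ℕ := {w | w ∈ comp G r ∧ (G.neighborSet w).ncard = 1}
  have hAfin : A.Finite := hC.subset fun w hw => hw.1
  have hPfin : P.Finite := hX.subset fun w hw => hw.1
  have hcompu : ∀ u ∈ comp G r, comp G u = comp G r := fun u hu => comp_eq_of_mem hu
  have hdisj : ∀ w, w ∈ comp G n → w ∈ comp G r → False := fun w hw hw' =>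
    hnr (Reachable.trans hw' (Reachable.symm hw))
  -- degrees
  have hdegpos : ∀ u ∈ comp G r, (G.neighborSet u).ncard ≠ 0 := by
    intro u hu h0
    have hfin : (G.neighborSet u).Finite := hC.subset fun w hw => Reachable.trans hu (Adj.reachable hw)
    rw [Set.ncard_eq_zero hfin] at h0
    have h1 : comp G u ⊆ {u} := by
      intro x hx
      refine reach_ind (P := fun x => x ∈ ({u} : Set ℕ)) rfl ?_ hx
      intro a b _ ha hab
      rw [Set.mem_singleton_iff] at ha
      subst ha
      have : b ∈ G.neighborSet a := hab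
      rw [h0] at this
      exact this.elim
    rw [hcompu u hu] at h1
    have h2 := Set.ncard_le_ncard h1 (Set.toFinite _)
    rw [Set.ncard_singleton] at h2
    omega
  have key : ∀ u ∈ comp G r, ∀ G', AddEdge G G' n u → lv G' n = P.ncard + (A \ {u}).ncard := by
    intro u hu G' hG'
    have hun : u ≠ n := by
      rintro rfl
      exact hnr hu
    unfold lv
    have hcomp := comp_addEdge hG'
    rw [hcompu u hu] at hcomp
    have hset : {w | G'.Reachable n w ∧ (G'.neighborSet w).ncard = 1} = P ∪ (A \ {u}) := by
      ext w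
      have hmem : G'.Reachable n w ↔ w ∈ comp G n ∨ w ∈ comp G r := by
        change w ∈ comp G' n ↔ _
        rw [hcomp]
        rfl
      have hN : w ≠ n → w ≠ u → G'.neighborSet w = G.neighborSet w := by
        intro h1 h2
        ext x
        simp only [mem_neighborSet]
        rw [hG' w x]
        constructor
        · rintro (h | ⟨h, _⟩ | ⟨h, _⟩)
          · exact h
          · exact absurd h h1
          · exact absurd h h2
        · exact Or.inl
      have hNn : (G'.neighborSet n).ncard = (G.neighborSet n).ncard + 1 := by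
        have h1 : G'.neighborSet n = insert u (G.neighborSet n) := by
          ext x
          simp only [mem_neighborSet, Set.mem_insert_iff]
          rw [hG' n x]
          constructor
          · rintro (h | ⟨_, h⟩ | ⟨h, _⟩)
            · exact Or.inr h
            · exact Or.inl h
            · exact absurd h.symm hun
          · rintro (rfl | h)
            · exact Or.inr (Or.inl ⟨rfl, rfl⟩)
            · exact Or.inl h
        rw [h1]
        exact Set.ncard_insert_of_notMem (fun hc => hdisj u (Adj.reachable hc) hu)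
          (hX.subset fun w hw => Adj.reachable hw)
      have hNu : (G'.neighborSet u).ncard = (G.neighborSet u).ncard + 1 := by
        have h1 : G'.neighborSet u = insert n (G.neighborSet u) := by
          ext x
          simp only [mem_neighborSet, Set.mem_insert_iff]
          rw [hG' u x]
          constructor
          · rintro (h | ⟨h, _⟩ | ⟨_, h⟩)
            · exact Or.inr h
            · exact absurd h hun
            · exact Or.inl h
          · rintro (rfl | h)
            · exact Or.inr (Or.inr ⟨rfl, rfl⟩)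
            · exact Or.inl h
        rw [h1]
        exact Set.ncard_insert_of_notMem
          (fun hc => hdisj n (Reachable.refl _) (Reachable.trans hu (Adj.reachable hc)))
          (hC.subset fun w hw => Reachable.trans hu (Adj.reachable hw))
      have hd := hdegpos u hu
      constructor
      · rintro ⟨h1, h2⟩
        rw [hmem] at h1
        rcases h1 with h1 | h1
        · left
          refine ⟨h1, ?_⟩
          by_cases hwn : w = n
          · subst hwn
            right
            exact ⟨rfl, by omega⟩
          · left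
            have hwu : w ≠ u := fun hc => hdisj u (hc ▸ h1) hu
            rw [hN hwn hwu] at h2
            exact ⟨hwn, h2⟩
        · right
          by_cases hwu : w = u
          · subst hwu
            omega
          · have hwn : w ≠ n := fun hc => hnr (hc ▸ h1)
            rw [hN hwn hwu] at h2
            exact ⟨⟨h1, h2⟩, hwu⟩
      · rintro (⟨h1, h2⟩ | ⟨⟨h1, h2⟩, h3'⟩)
        · refine ⟨hmem.2 (Or.inl h1), ?_⟩
          rcases h2 with ⟨h2, h4⟩ | ⟨rfl, h4⟩
          · have hwu : w ≠ u := fun hc => hdisj u (hc ▸ h1) hu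
            rw [hN h2 hwu]
            exact h4
          · omega
        · refine ⟨hmem.2 (Or.inr h1), ?_⟩
          have hwn : w ≠ n := fun hc => hnr (hc ▸ h1)
          rw [hN hwn h3']
          exact h2
    rw [hset, Set.ncard_union_eq _ hPfin (hAfin.subset Set.diff_subset)]
    rw [Set.disjoint_left]
    intro w hw hw'
    exact hdisj w hw.1 hw'.1.1
  obtain ⟨u1, hu1, hd1⟩ := exists_leaf hG hC (by omega)
  obtain ⟨u2, hu2, hd2⟩ := exists_nonleaf h3
  have e1 : (A \ {u1}).ncard + 1 = A.ncard := Set.ncard_diff_singleton_add_one (⟨hu1, hd1⟩ : u1 ∈ A) hAfin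
  have e2 : A \ {u2} = A := by
    rw [Set.diff_singleton_eq_self]
    exact fun hc => hd2 hc.2
  by_cases hb : Odd (P.ncard + A.ncard) ↔ b
  · refine ⟨u2, hu2, fun G' hG' => ?_⟩
    rw [key u2 hu2 G' hG', e2]
    exact hb
  · refine ⟨u1, hu1, fun G' hG' => ?_⟩
    rw [key u1 hu1 G' hG']
    have h4 : P.ncard + A.ncard = (P.ncard + (A \ {u1}).ncard) + 1 := by omega
    rw [h4, Nat.odd_add_one] at hb
    tauto

end Pool.Agent.R742.EG
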