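import Pool.Agent.R742.EG.PartB2

/-!
# Plays of Hider against a strategy of Seeker: positions
-/

set_option autoImplicit false

namespace Pool.Agent.R742.EG

open SimpleGraph

variable {σ : List Bool → Sym2 ℕ}

/-- `e` is asked before `l` and answered `b` -/
def Ans (σ : List Bool → Sym2 ℕ) (l : List Bool) (e : Sym2 ℕ) (b : Bool) : Prop :=
  ∃ m, (m ++ [b]) <+: l ∧ σ m = e

def Asked (σ : List Bool → Sym2 ℕ) (l : List Bool) (e : Sym2 ℕ) : Prop := ∃ b, Ans σ l e b

def LegalS (σ : List Bool → Sym2 ℕ) : Prop := ∀ a : ℕ → Bool, Legal fun n => σ (pre a n)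

/-- green graph -/
def GA (σ : List Bool → Sym2 ℕ) (l : List Bool) : SimpleGraph ℕ :=
  SimpleGraph.fromEdgeSet {e | Ans σ l e true}

/-- graph of the pairs which are not red -/
def HA (σ : List Bool → Sym2 ℕ) (l : List Bool) : SimpleGraph ℕ :=
  SimpleGraph.fromEdgeSet {e | ¬ Ans σ l e false}

theorem GA_adj {l : List Bool} {u v : ℕ} : (GA σ l).Adj u v ↔ Ans σ l s(u, v) true ∧ u ≠ v :=
  SimpleGraph.fromEdgeSet_adj _

theorem HA_adj {l : List Bool} {u v : ℕ} : (HA σ l).Adj u v ↔ ¬ Ans σ l s(u, v) false ∧ u ≠ v :=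
  SimpleGraph.fromEdgeSet_adj _

theorem exists_seq_prefix (l : List Bool) : ∃ a : ℕ → Bool, pre a l.length = l := by
  refine ⟨fun n => l.getD n false, ?_⟩
  apply List.ext_getElem
  · simp [pre_length]
  · intro i h1 h2
    simp [pre, List.getElem?_eq_getElem h2]

theorem LegalS.nondiag (hσ : LegalS σ) (l : List Bool) : ¬ (σ l).IsDiag := by
  obtain ⟨a, ha⟩ := exists_seq_prefix l
  have h := (hσ a).1 l.length
  simp only [ha] at h
  exact h

theorem LegalS.uniq (hσ : LegalS σ) {l m m' : List Bool} (h : m <+: l) (h' : m' <+: l)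
    (he : σ m = σ m') : m = m' := by
  obtain ⟨a, ha⟩ := exists_seq_prefix l
  rw [← ha] at h h'
  have h1 := prefix_pre a h
  have h2 := prefix_pre a h'
  have h3 : m.length = m'.length := by
    apply (hσ a).2
    simp only
    rw [← h1, ← h2]
    exact he
  rw [h1, h2, h3]

theorem ans_append {l : List Bool} {b c : Bool} {e : Sym2 ℕ} :
    Ans σ (l ++ [b]) e c ↔ Ans σ l e c ∨ (e = σ l ∧ b = c) := by
  constructor
  · rintro ⟨m, hm, rfl⟩
    rw [List.prefix_concat_iff] at hm
    rcases hm with hm | hm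
    · right
      have h := List.append_inj' hm rfl
      obtain ⟨rfl, h2⟩ := h
      exact ⟨rfl, by simpa using h2.symm⟩
    · exact Or.inl ⟨m, hm, rfl⟩
  · rintro (⟨m, hm, rfl⟩ | ⟨rfl, rfl⟩)
    · exact ⟨m, hm.trans (List.prefix_append _ _), rfl⟩
    · exact ⟨l, List.prefix_refl _, rfl⟩

theorem LegalS.not_asked (hσ : LegalS σ) (l : List Bool) : ¬ Asked σ l (σ l) := by
  rintro ⟨b, m, hm, h⟩
  have h1 := hσ.uniq (l := l) ((List.prefix_append m [b]).trans hm) (List.prefix_refl l) h
  subst h1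
  have := hm.length_le
  simp at this

theorem LegalS.ans_unique (hσ : LegalS σ) {l : List Bool} {e : Sym2 ℕ} (h : Ans σ l e true) :
    ¬ Ans σ l e false := by
  rintro ⟨m', hm', h'⟩
  obtain ⟨m, hm, h⟩ := h
  have h1 : m = m' := hσ.uniq (l := l) ((List.prefix_append m [true]).trans hm)
    ((List.prefix_append m' [false]).trans hm') (h.trans h'.symm)
  subst h1
  have h2 := List.IsPrefix.eq_of_length (List.prefix_of_prefix_length_le hm hm' (by simp))
    (by simp)
  simp at h2

theorem GA_append_true {l : List Bool} {u v : ℕ} (huv : u ≠ v) (h : σ l = s(u, v)) :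
    AddEdge (GA σ l) (GA σ (l ++ [true])) u v := by
  intro a b
  rw [GA_adj, GA_adj, ans_append, h, Sym2.eq_iff]
  constructor
  · rintro ⟨(h1 | h1), h2⟩
    · exact Or.inl ⟨h1, h2⟩
    · exact Or.inr h1.1
  · rintro (h1 | h1)
    · exact ⟨Or.inl h1.1, h1.2⟩
    · refine ⟨Or.inr ⟨h1, rfl⟩, ?_⟩
      rcases h1 with ⟨rfl, rfl⟩ | ⟨rfl, rfl⟩
      · exact huv
      · exact huv.symm

theorem GA_append_false {l : List Bool} : GA σ (l ++ [false]) = GA σ l := by
  ext a b
  rw [GA_adj, GA_adj, ans_append]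
  simp

theorem HA_append_true {l : List Bool} : HA σ (l ++ [true]) = HA σ l := by
  ext a b
  rw [HA_adj, HA_adj, ans_append]
  simp

theorem HA_append_false {l : List Bool} {u v : ℕ} (h : σ l = s(u, v)) :
    HA σ (l ++ [false]) = del (HA σ l) u v := by
  ext a b
  rw [HA_adj, del_adj, HA_adj, ans_append, h]
  constructor
  · rintro ⟨h1, h2⟩
    exact ⟨⟨fun hc => h1 (Or.inl hc), h2⟩, fun hc => h1 (Or.inr ⟨hc, rfl⟩)⟩
  · rintro ⟨⟨h1, h2⟩, h3⟩
    refine ⟨?_, h2⟩
    rintro (h4 | ⟨h4, _⟩)
    · exact h1 h4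
    · exact h3 h4

/-- no white pair inside a green component -/
def SafeA (σ : List Bool → Sym2 ℕ) (l : List Bool) : Prop :=
  ∀ u v, u ≠ v → ¬ Asked σ l s(u, v) → ¬ (GA σ l).Reachable u v

def SafeH (σ : List Bool → Sym2 ℕ) (l : List Bool) : Prop := ∀ m, m <+: l → SafeA σ m

theorem GA_nil : GA σ [] = ⊥ := by
  ext a b
  rw [GA_adj]
  simp only [SimpleGraph.bot_adj, iff_false, not_and]
  rintro ⟨m, hm, _⟩
  simp at hm

theorem safeH_nil : SafeH σ [] := by
  intro m hm
  obtain rfl : m = [] := by simpa using hm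
  intro u v huv _ hr
  rw [GA_nil] at hr
  apply huv
  exact reach_ind (P := fun v => u = v) rfl (fun a b _ _ hab => absurd hab (by simp)) hr

theorem safeH_append {l : List Bool} {b : Bool} (h : SafeH σ l) (h' : SafeA σ (l ++ [b])) :
    SafeH σ (l ++ [b]) := by
  intro m hm
  rw [List.prefix_concat_iff] at hm
  rcases hm with rfl | hm
  · exact h'
  · exact h m hm

theorem SafeH.acyclic (hσ : LegalS σ) {l : List Bool} (h : SafeH σ l) : (GA σ l).IsAcyclic := by
  induction l using List.reverseRecOn with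
  | nil => rw [GA_nil]; exact isAcyclic_bot
  | append_singleton l b ih =>
    have hl : SafeH σ l := fun m hm => h m (hm.trans (List.prefix_append _ _))
    have ih := ih hl
    cases b with
    | false => rw [GA_append_false]; exact ih
    | true =>
      obtain ⟨u, v, huv⟩ : ∃ u v, σ l = s(u, v) := by
        induction hh : σ l using Sym2.ind with
        | _ u v => exact ⟨u, v, rfl⟩
      have hne : u ≠ v := by
        have := hσ.nondiag l
        rw [huv] at this
        simpa using this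
      refine acyclic_addEdge (GA_append_true hne huv) ih (hl l (List.prefix_refl _) u v hne ?_)
      rw [← huv]
      exact hσ.not_asked l

theorem mem_ans_pre {a : ℕ → Bool} {n : ℕ} {e : Sym2 ℕ} {b : Bool} :
    Ans σ (pre a n) e b ↔ ∃ m, m < n ∧ σ (pre a m) = e ∧ a m = b := by
  constructor
  · rintro ⟨M, hM, ht⟩
    have h1 := prefix_pre a hM
    rw [List.length_append, List.length_singleton, pre_succ] at h1
    have h2 := List.append_inj' h1 rfl
    have h3 : M.length < n := by
      have := hM.length_le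
      rw [List.length_append, List.length_singleton, pre_length] at this
      omega
    refine ⟨M.length, h3, ?_, ?_⟩
    · rw [← h2.1]
      exact ht
    · simpa using h2.2.symm
  · rintro ⟨m, hm, rfl, rfl⟩
    refine ⟨pre a m, ?_, rfl⟩
    rw [← pre_succ]
    exact pre_prefix a hm

/-- there is a pair which is never asked as long as Hider plays safe -/
theorem exists_stable (hw : ∀ a : ℕ → Bool, (whiteSet fun n => σ (pre a n)).Nonempty) :
    ∃ s, SafeH σ s ∧ ∃ u v, u ≠ v ∧ ∀ l, s <+: l → SafeH σ l → ¬ Asked σ l s(u, v) := by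
  classical
  by_contra hcon
  push Not at hcon
  have hstep : ∀ s e, SafeH σ s → ∃ l, s <+: l ∧ SafeH σ l ∧ (¬ e.IsDiag → Asked σ l e) := by
    intro s e hs
    induction e using Sym2.ind with
    | _ u v =>
      by_cases huv : u = v
      · exact ⟨s, List.prefix_refl _, hs, fun hc => absurd huv (by simpa using hc)⟩
      · obtain ⟨l, h1, h2, h3⟩ := hcon s hs u v huv
        exact ⟨l, h1, h2, fun _ => h3⟩
  choose! nxt hnxt using hstep
  obtain ⟨E, hE⟩ := exists_surjective_nat (Sym2 ℕ)
  let F : ℕ → List Bool := fun k => Nat.rec [] (fun k L => nxt L (E k)) k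
  have hF0 : F 0 = [] := rfl
  have hFs : ∀ k, F (k + 1) = nxt (F k) (E k) := fun k => rfl
  clear_value F
  have hFok : ∀ k, SafeH σ (F k) := by
    intro k
    induction k with
    | zero => rw [hF0]; exact safeH_nil
    | succ k ih => rw [hFs]; exact (hnxt (F k) (E k) ih).2.1
  obtain ⟨a, ha⟩ := exists_limit F fun k => by
    rw [hFs]
    exact (hnxt (F k) (E k) (hFok k)).1
  obtain ⟨e, he1, he2⟩ := hw a
  obtain ⟨k, rfl⟩ := hE e
  have h1 := (hnxt (F k) (E k) (hFok k)).2.2 he1
  rw [← hFs, ← ha (k + 1)] at h1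
  obtain ⟨b, h1⟩ := h1
  rw [mem_ans_pre] at h1
  obtain ⟨m, _, h2, _⟩ := h1
  exact he2 m h2

/-! ### partitions -/

theorem extend_equiv {X : Type} [DecidableEq X] (j : ℕ → X) (e0 : ℕ ≃ X) (F : Finset ℕ) :
    Set.InjOn j ↑F → ∃ e : ℕ ≃ X, ∀ v ∈ F, e v = j v := by
  classical
  induction F using Finset.induction_on with
  | empty => exact fun _ => ⟨e0, by simp⟩
  | insert x F hx ih =>
    intro hinj
    obtain ⟨e, he⟩ := ih (hinj.mono (by simp))
    refine ⟨e.trans (Equiv.swap (e x) (j x)), fun v hv => ?_⟩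
    rw [Finset.mem_insert] at hv
    rcases hv with rfl | hv
    · simp
    · rw [Equiv.trans_apply, he v hv]
      have hvx : v ≠ x := fun hc => hx (hc ▸ hv)
      refine Equiv.swap_apply_of_ne_of_ne ?_ ?_
      · rw [← he v hv]
        exact fun hc => hvx (e.injective hc)
      · intro hc
        exact hvx (hinj (by simp [hv]) (by simp) hc)

theorem exists_partition (N : ℕ) (C : Set ℕ) (y : ℕ → Bool) :
    ∃ (f : ℕ → ℕ) (h : ℕ → Bool), (∀ k, (f ⁻¹' {k}).ncard = 2 * k + 6 + (y k).toNat) ∧
      (∀ v ≤ N, v ∈ C → f v = N + 1) ∧ (∀ v ≤ N, v ∉ C → f v = N) ∧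
      (∃ w, N < w ∧ f w = N) ∧ (∃ w, N < w ∧ f w = N + 1) ∧
      (∀ v, f v = N ∨ f v = N + 1 → h v = true) ∧
      ∀ k, k ≠ N → k ≠ N + 1 → ∀ b, 3 ≤ (f ⁻¹' {k} ∩ h ⁻¹' {b}).ncard := by
  classical
  let n : ℕ → ℕ := fun k => 2 * k + 6 + (y k).toNat
  have hn : ∀ k, 2 * k + 6 ≤ n k := fun k => Nat.le_add_right _ _
  let X := {p : ℕ × ℕ // p.2 < n p.1}
  let mk : ∀ k i, i < n k → X := fun k i hi => ⟨(k, i), hi⟩
  have hmk1 : ∀ k i hi, (mk k i hi).1.1 = k := fun _ _ _ => rfl
  have hmk2 : ∀ k i hi, (mk k i hi).1.2 = i := fun _ _ _ => rfl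
  have hinf : Infinite X := by
    refine Infinite.of_injective (fun k : ℕ => mk k 0 (by have := hn k; omega)) ?_
    intro a b hab
    have := congrArg (fun x : X => x.1.1) hab
    simpa [hmk1] using this
  obtain ⟨e0⟩ : Nonempty (ℕ ≃ X) := nonempty_equiv_of_countable
  let t : ℕ → ℕ := fun v => if v ∈ C then N + 1 else N
  have ht : ∀ v, N ≤ t v := by
    intro v
    simp only [t]
    split_ifs <;> omega
  let j : ℕ → X := fun v => mk (t v) (v % n (t v)) (Nat.mod_lt _ (by have := hn (t v); omega))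
  have hj1 : ∀ v, (j v).1.1 = t v := fun _ => rfl
  have hj2 : ∀ v ≤ N, (j v).1.2 = v := by
    intro v hv
    change v % n (t v) = v
    exact Nat.mod_eq_of_lt (by have := hn (t v); have := ht v; omega)
  have hinj : Set.InjOn j ↑(Finset.range (N + 1)) := by
    intro a ha b hb hab
    rw [Finset.mem_coe, Finset.mem_range] at ha hb
    rw [← hj2 a (by omega), ← hj2 b (by omega), hab]
  obtain ⟨e, he⟩ := extend_equiv j e0 _ hinj
  have he' : ∀ v ≤ N, e v = j v := fun v hv => he v (by rw [Finset.mem_range]; omega)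
  let f : ℕ → ℕ := fun v => (e v).1.1
  let h : ℕ → Bool := fun v => decide (f v = N ∨ f v = N + 1 ∨ (e v).1.2 < 3)
  have hfs : ∀ x : X, f (e.symm x) = x.1.1 := by intro x; simp [f]
  have hinjX : ∀ (m : ℕ) (g : Fin m → X), (∀ a b, (g a).1.2 = (g b).1.2 → a = b) →
      (Set.range fun i => e.symm (g i)).ncard = m := by
    intro m g hg
    have hg' : Function.Injective fun i => e.symm (g i) := by
      intro a b hab
      exact hg a b (by rw [e.symm.injective hab])
    rw [← Set.image_univ, Set.ncard_image_of_injective _ hg', Set.ncard_univ,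
      Nat.card_eq_fintype_card, Fintype.card_fin]
  have hblock : ∀ k, f ⁻¹' {k} = Set.range fun i : Fin (n k) => e.symm (mk k i.1 i.2) := by
    intro k
    ext v
    constructor
    · intro hv
      have hv' : (e v).1.1 = k := hv
      refine ⟨⟨(e v).1.2, hv' ▸ (e v).2⟩, ?_⟩
      simp only
      rw [Equiv.symm_apply_eq]
      apply Subtype.ext
      exact Prod.ext hv'.symm rfl
    · rintro ⟨i, rfl⟩
      exact hfs _
  have hcard : ∀ k, (f ⁻¹' {k}).ncard = n k := by
    intro k
    rw [hblock k]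
    exact hinjX (n k) (fun i => mk k i.1 i.2) fun a b hab => Fin.ext hab
  refine ⟨f, h, hcard, ?_, ?_, ?_, ?_, ?_, ?_⟩
  · intro v hv hvC
    change (e v).1.1 = _
    rw [he' v hv, hj1]
    simp only [t, if_pos hvC]
  · intro v hv hvC
    change (e v).1.1 = _
    rw [he' v hv, hj1]
    simp only [t, if_neg hvC]
  · have hlt : 2 * N + 5 < n N := by have := hn N; omega
    refine ⟨e.symm (mk N (2 * N + 5) hlt), ?_, hfs _⟩
    by_contra hc
    have h1 := hj2 (e.symm (mk N (2 * N + 5) hlt)) (by omega)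
    rw [← he' _ (by omega), Equiv.apply_symm_apply, hmk2] at h1
    omega
  · have hlt : 2 * N + 5 < n (N + 1) := by have := hn (N + 1); omega
    refine ⟨e.symm (mk (N + 1) (2 * N + 5) hlt), ?_, hfs _⟩
    by_contra hc
    have h1 := hj2 (e.symm (mk (N + 1) (2 * N + 5) hlt)) (by omega)
    rw [← he' _ (by omega), Equiv.apply_symm_apply, hmk2] at h1
    omega
  · intro v hv
    simp only [h, decide_eq_true_eq]
    tauto
  · intro k hk1 hk2 b
    have hfin : (f ⁻¹' {k}).Finite := Set.finite_of_ncard_ne_zero (by rw [hcard]; have := hn k; omega)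
    cases b with
    | true =>
      let g : Fin 3 → X := fun i => mk k i.val (by have := hn k; omega)
      have hsub : (Set.range fun i => e.symm (g i)) ⊆ f ⁻¹' {k} ∩ h ⁻¹' {true} := by
        rintro _ ⟨i, rfl⟩
        refine ⟨hfs _, ?_⟩
        simp only [h, Set.mem_preimage, Set.mem_singleton_iff, decide_eq_true_eq]
        right; right
        rw [Equiv.apply_symm_apply]
        exact i.2
      have h1 := Set.ncard_le_ncard hsub (hfin.subset Set.inter_subset_left)
      rwa [hinjX 3 g fun a b hab => Fin.ext hab] at h1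
    | false =>
      let g : Fin 3 → X := fun i => mk k (i.val + 3) (by have := hn k; omega)
      have hsub : (Set.range fun i => e.symm (g i)) ⊆ f ⁻¹' {k} ∩ h ⁻¹' {false} := by
        rintro _ ⟨i, rfl⟩
        refine ⟨hfs _, ?_⟩
        simp only [h, Set.mem_preimage, Set.mem_singleton_iff, decide_eq_false_iff_not]
        rw [hfs, Equiv.apply_symm_apply]
        rintro (hc | hc | hc)
        · exact hk1 hc
        · exact hk2 hc
        · have hc' : i.val + 3 < 3 := hc
          omega
      have h1 := Set.ncard_le_ncard hsub (hfin.subset Set.inter_subset_left)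
      rwa [hinjX 3 g fun a b hab => Fin.ext (by
        have hab' : a.val + 3 = b.val + 3 := hab
        omega)] at h1

end Pool.Agent.R742.EG
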