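import Pool.Agent.R742.EG.Inv

/-!
# Plays of Hider against a strategy of Seeker: the whole run
-/

set_option autoImplicit false

namespace Pool.Agent.R742.EG

open SimpleGraph

variable {σ : List Bool → Sym2 ℕ}

/-- the graph `G_∞` of a run -/
def GS (σ : List Bool → Sym2 ℕ) (a : ℕ → Bool) : SimpleGraph ℕ :=
  SimpleGraph.fromEdgeSet (greenSet (fun n => σ (pre a n)) a)

/-- the graph `G_∞ ∪ W_∞` of a run -/
def HS (σ : List Bool → Sym2 ℕ) (a : ℕ → Bool) : SimpleGraph ℕ :=
  GS σ a ⊔ SimpleGraph.fromEdgeSet (whiteSet fun n => σ (pre a n))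

theorem GS_adj {a : ℕ → Bool} {u v : ℕ} :
    (GS σ a).Adj u v ↔ (∃ n, σ (pre a n) = s(u, v) ∧ a n = true) ∧ u ≠ v :=
  SimpleGraph.fromEdgeSet_adj _

theorem HS_adj (hσ : LegalS σ) {a : ℕ → Bool} {u v : ℕ} :
    (HS σ a).Adj u v ↔ (¬ ∃ n, σ (pre a n) = s(u, v) ∧ a n = false) ∧ u ≠ v := by
  unfold HS
  rw [SimpleGraph.sup_adj, GS_adj, SimpleGraph.fromEdgeSet_adj]
  constructor
  · rintro (⟨⟨n, h1, h2⟩, h3⟩ | ⟨⟨h1, h2⟩, h3⟩)
    · refine ⟨?_, h3⟩
      rintro ⟨m, h4, h5⟩
      have : n = m := (hσ a).2 (h1.trans h4.symm)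
      subst this
      rw [h2] at h5
      exact absurd h5 (by simp)
    · refine ⟨?_, h3⟩
      rintro ⟨m, h4, _⟩
      exact h2 m h4
  · rintro ⟨h1, h2⟩
    by_cases hc : ∃ n, σ (pre a n) = s(u, v)
    · obtain ⟨n, hn⟩ := hc
      left
      refine ⟨⟨n, hn, ?_⟩, h2⟩
      cases hb : a n with
      | true => rfl
      | false => exact absurd ⟨n, hn, hb⟩ h1
    · right
      push Not at hc
      exact ⟨⟨by simpa using h2, hc⟩, h2⟩

theorem agree_pair (hσ : LegalS σ) (a : ℕ → Bool) (e : Sym2 ℕ) : ∃ n0, ∀ n, n0 ≤ n → ∀ c,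
    (Ans σ (pre a n) e c ↔ ∃ m, σ (pre a m) = e ∧ a m = c) := by
  by_cases h : ∃ m, σ (pre a m) = e
  · obtain ⟨m, hm⟩ := h
    refine ⟨m + 1, fun n hn c => ?_⟩
    rw [mem_ans_pre]
    constructor
    · rintro ⟨m', _, h1, h2⟩
      exact ⟨m', h1, h2⟩
    · rintro ⟨m', h1, h2⟩
      have : m' = m := (hσ a).2 (h1.trans hm.symm)
      exact ⟨m', by omega, h1, h2⟩
  · refine ⟨0, fun n _ c => ?_⟩
    rw [mem_ans_pre]
    constructor
    · rintro ⟨m', _, h1, h2⟩
      exact ⟨m', h1, h2⟩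
    · rintro ⟨m', h1, h2⟩
      exact absurd ⟨m', h1⟩ h

theorem agree (hσ : LegalS σ) (a : ℕ → Bool) {D : Set ℕ} (hD : D.Finite) : ∃ n0, ∀ n, n0 ≤ n →
    ∀ x ∈ D, ∀ y ∈ D, ((GA σ (pre a n)).Adj x y ↔ (GS σ a).Adj x y) ∧
      ((HA σ (pre a n)).Adj x y ↔ (HS σ a).Adj x y) := by
  classical
  choose N hN using fun e => agree_pair hσ a e
  refine ⟨hD.toFinset.sup fun x => hD.toFinset.sup fun y => N s(x, y), fun n hn x hx y hy => ?_⟩
  have h1 : N s(x, y) ≤ n := by
    refine le_trans ?_ hn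
    refine le_trans ?_ (Finset.le_sup (f := fun x => hD.toFinset.sup fun y => N s(x, y))
      (hD.mem_toFinset.2 hx))
    exact Finset.le_sup (f := fun y => N s(x, y)) (hD.mem_toFinset.2 hy)
  rw [GA_adj, GS_adj, HA_adj, HS_adj hσ, hN _ n h1 true, hN _ n h1 false]
  exact ⟨Iff.rfl, Iff.rfl⟩

/-- `y` is coded by the sizes of the components -/
def SizeOK (y : ℕ → Bool) (G : SimpleGraph ℕ) : Prop :=
  (∃ s0, ∀ p ∈ Sig G, s0 ≤ p.1 → p.1 = 2 * ((p.1 - 6) / 2) + 6 + (y ((p.1 - 6) / 2)).toNat) ∧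
    ∃ k1, ∀ k, k1 ≤ k → ∃ p ∈ Sig G, p.1 = 2 * k + 6 + (y k).toNat

theorem comp_eq_block {G : SimpleGraph ℕ} {g : ℕ → ℕ} {k : ℕ} (hc : Conn G (g ⁻¹' {k}))
    (hcl : ∀ u v, G.Adj u v → g u = k → g v = k) {v : ℕ} (hv : g v = k) :
    comp G v = g ⁻¹' {k} := by
  apply Set.Subset.antisymm
  · intro x hx
    exact reach_ind (P := fun x => g x = k) hv (fun a b _ ha hab => hcl a b hab ha) hx
  · exact hc.subset_comp hv

theorem sig_of_comp (G : SimpleGraph ℕ) {v : ℕ} (hfin : (comp G v).Finite) :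
    ∃ p ∈ Sig G, p.1 = (comp G v).ncard := by
  classical
  exact ⟨((comp G v).ncard, decide (Odd (lv G v))), ⟨v, hfin, rfl, by simp⟩, rfl⟩

theorem asked_bdd (l : List Bool) : ∃ N, ∀ e, Asked σ l e → ∀ x ∈ e, x ≤ N := by
  induction l using List.reverseRecOn with
  | nil =>
    refine ⟨0, ?_⟩
    rintro e ⟨b, m, hm, _⟩
    simp at hm
  | append_singleton l b ih =>
    obtain ⟨N, hN⟩ := ih
    obtain ⟨u, v, hl⟩ : ∃ u v, σ l = s(u, v) := by
      induction hh : σ l using Sym2.ind with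
      | _ u v => exact ⟨u, v, rfl⟩
    refine ⟨max N (u + v), ?_⟩
    rintro e ⟨c, hc⟩ x hx
    rw [ans_append] at hc
    rcases hc with hc | ⟨rfl, _⟩
    · exact (hN e ⟨c, hc⟩ x hx).trans (le_max_left _ _)
    · rw [hl, Sym2.mem_iff] at hx
      rcases hx with rfl | rfl <;> omega

theorem conn_fresh {l : List Bool} {U : Set ℕ} {w : ℕ} (hw : w ∈ U)
    (hfresh : ∀ x, ¬ Asked σ l s(w, x)) : Conn (HA σ l) U := by
  have key : ∀ x ∈ U, (res (HA σ l) U).Reachable w x := by
    intro x hx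
    by_cases h : w = x
    · subst h
      exact Reachable.refl _
    · exact Adj.reachable ⟨HA_adj.2 ⟨fun hc => hfresh x ⟨_, hc⟩, h⟩, hw, hx⟩
  exact fun x hx y hy => (key x hx).symm.trans (key y hy)

theorem play_A (hσ : LegalS σ)
    (hw : ∀ a : ℕ → Bool, (whiteSet fun n => σ (pre a n)).Nonempty) (y : ℕ → Bool) :
    ∃ a, NS (HS σ a) ∧ ¬ KK (HS σ a) ∧
      (NS (GS σ a) → KK (GS σ a) ∧ Tame (GS σ a) ∧ SizeOK y (GS σ a)) := by
  classical
  obtain ⟨s, hs, u0, v0, huv, hnever⟩ := exists_stable hw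
  obtain ⟨N0, hN0⟩ := asked_bdd (σ := σ) s
  let N := N0 + u0 + v0
  have hN : ∀ e, Asked σ s e → ∀ x ∈ e, x ≤ N := fun e he x hx => (hN0 e he x hx).trans (by omega)
  have hu0N : u0 ≤ N := by omega
  have hv0N : v0 ≤ N := by omega
  have hna0 : ¬ Asked σ s s(u0, v0) := hnever s (List.prefix_refl _) hs
  have hu0C : u0 ∉ comp (GA σ s) v0 := fun hc =>
    hs s (List.prefix_refl _) u0 v0 huv hna0 (Reachable.symm hc)
  obtain ⟨f, h, hcard, hfC, hfN, ⟨w1, hw1, hfw1⟩, ⟨w2, hw2, hfw2⟩, hspec, hhalf⟩ :=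
    exists_partition N (comp (GA σ s) v0) y
  have hf : Good f := by
    intro k
    rw [hcard k]
    cases y k <;> simp
  have hfu0 : f u0 = N := hfN u0 hu0N hu0C
  have hfv0 : f v0 = N + 1 := hfC v0 hv0N (mem_comp_self _ _)
  have hle : ∀ v, v ≤ N → f v = N ∨ f v = N + 1 := by
    intro v hv
    by_cases hc : v ∈ comp (GA σ s) v0
    · exact Or.inr (hfC v hv hc)
    · exact Or.inl (hfN v hv hc)
  have hfresh : ∀ w, N < w → ∀ x, ¬ Asked σ s s(w, x) := by
    intro w hw x hc
    have := hN _ hc w (by simp)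
    omega
  have hgN : ∀ a b, (GA σ s).Adj a b → a ≤ N ∧ b ≤ N := by
    intro a b hab
    have h1 : Asked σ s s(a, b) := ⟨true, (GA_adj.1 hab).1⟩
    exact ⟨hN _ h1 a (by simp), hN _ h1 b (by simp)⟩
  have hInv0 : Inv σ f h s := by
    refine ⟨?_, ?_, ?_, ?_, hs s (List.prefix_refl _)⟩
    · intro k
      by_cases hk1 : k = N
      · subst hk1
        exact conn_fresh (w := w1) hfw1 (hfresh w1 hw1)
      · by_cases hk2 : k = N + 1
        · subst hk2
          exact conn_fresh (w := w2) hfw2 (hfresh w2 hw2)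
        · intro x hx
          have hxk : f x = k := hx
          have hxN : N < x := by
            by_contra hc
            rcases hle x (by omega) with h1 | h1 <;> omega
          exact conn_fresh (w := x) hx (hfresh x hxN) x hx
    · intro k b x hx
      have hxk : f x = k := hx.1
      have hxb : h x = b := hx.2
      by_cases hk1 : k = N
      · have hb : b = true := by rw [← hxb]; exact hspec x (Or.inl (hxk.trans hk1))
        have hw1U : w1 ∈ f ⁻¹' {k} ∩ h ⁻¹' {b} :=
          ⟨hfw1.trans hk1.symm, (hspec w1 (Or.inl hfw1)).trans hb.symm⟩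
        exact conn_fresh hw1U (hfresh w1 hw1) x hx
      · by_cases hk2 : k = N + 1
        · have hb : b = true := by rw [← hxb]; exact hspec x (Or.inr (hxk.trans hk2))
          have hw2U : w2 ∈ f ⁻¹' {k} ∩ h ⁻¹' {b} :=
            ⟨hfw2.trans hk2.symm, (hspec w2 (Or.inr hfw2)).trans hb.symm⟩
          exact conn_fresh hw2U (hfresh w2 hw2) x hx
        · have hxN : N < x := by
            by_contra hc
            rcases hle x (by omega) with h1 | h1 <;> omega
          exact conn_fresh (w := x) hx (hfresh x hxN) x hx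
    · intro a b hab
      obtain ⟨ha, hb⟩ := hgN a b hab
      by_cases hc : a ∈ comp (GA σ s) v0
      · rw [hfC a ha hc, hfC b hb (Reachable.trans hc (Adj.reachable hab))]
      · rw [hfN a ha hc, hfN b hb fun hc' => hc (Reachable.trans hc' (Adj.reachable hab.symm))]
    · intro a b hab hh
      obtain ⟨ha, hb⟩ := hgN a b hab
      exact absurd ((hspec a (hle a ha)).trans (hspec b (hle b hb)).symm) hh
  let F : ℕ → List Bool := fun k => Nat.rec s (fun _ l => l ++ [pol σ f h l]) k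
  have hF0 : F 0 = s := rfl
  have hFs : ∀ k, F (k + 1) = F k ++ [pol σ f h (F k)] := fun k => rfl
  clear_value F
  have hFI : ∀ k, Inv σ f h (F k) := by
    intro k
    induction k with
    | zero => rw [hF0]; exact hInv0
    | succ k ih => rw [hFs]; exact ih.step hσ
  have hFS : ∀ k, SafeH σ (F k) := by
    intro k
    induction k with
    | zero => rw [hF0]; exact hs
    | succ k ih =>
      have h1 := (hFI (k + 1)).sf
      rw [hFs] at h1 ⊢
      exact safeH_append ih h1
  have hFl : ∀ k, (F k).length = s.length + k := by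
    intro k
    induction k with
    | zero => rw [hF0]; rfl
    | succ k ih => rw [hFs, List.length_append, ih, List.length_singleton]; omega
  have hFp : ∀ k, s <+: F k := by
    intro k
    induction k with
    | zero => rw [hF0]
    | succ k ih => rw [hFs]; exact ih.trans (List.prefix_append _ _)
  obtain ⟨a, ha⟩ := exists_limit F fun k => by rw [hFs]; exact List.prefix_append _ _
  have hpreF : ∀ k, pre a (s.length + k) = F k := fun k => by rw [← hFl, ha k]
  have hInv : ∀ n, s.length ≤ n → Inv σ f h (pre a n) := by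
    intro n hn
    obtain ⟨k, rfl⟩ := Nat.exists_eq_add_of_le hn
    rw [hpreF]
    exact hFI k
  have hSafe : ∀ n, SafeH σ (pre a n) := by
    intro n m hm
    have h1 : pre a n <+: F n := by
      rw [← hpreF]
      exact pre_prefix a (by omega)
    exact hFS n m (hm.trans h1)
  have hwhite : ∀ n, σ (pre a n) ≠ s(u0, v0) := by
    intro n hn
    apply hnever (F (n + 1)) (hFp _) (hFS _)
    refine ⟨a n, ?_⟩
    rw [← hpreF, mem_ans_pre]
    exact ⟨n, by omega, hn, rfl⟩
  have hcb : ∀ k, Conn (HS σ a) (f ⁻¹' {k}) := by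
    intro k
    obtain ⟨n0, hn0⟩ := agree hσ a (hf.finite k)
    refine conn_congr (G := HA σ (pre a (max n0 s.length))) (fun x hx y hy hxy => ?_)
      ((hInv _ (le_max_right _ _)).cb k)
    exact ((hn0 _ (le_max_left _ _) x hx y hy).2).1 hxy
  have hch : ∀ k b, Conn (HS σ a) (f ⁻¹' {k} ∩ h ⁻¹' {b}) := by
    intro k b
    obtain ⟨n0, hn0⟩ := agree hσ a (hf.finite k)
    refine conn_congr (G := HA σ (pre a (max n0 s.length))) (fun x hx y hy hxy => ?_)
      ((hInv _ (le_max_right _ _)).ch k b)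
    exact ((hn0 _ (le_max_left _ _) x hx.1 y hy.1).2).1 hxy
  have hgb : ∀ x y, (GS σ a).Adj x y → f x = f y := by
    intro x y hxy
    obtain ⟨n0, hn0⟩ := agree hσ a (Set.toFinite ({x, y} : Set ℕ))
    exact (hInv _ (le_max_right n0 s.length)).gb x y
      (((hn0 _ (le_max_left n0 s.length) x (by simp) y (by simp)).1).2 hxy)
  refine ⟨a, ⟨f, hf, 0, fun k _ => hcb k⟩, ?_, ?_⟩
  · rintro ⟨f', hf', he'⟩
    have h1 : ∀ x y, f x = f y → 0 ≤ f x → f' x = f' y := by
      intro x y hxy _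
      exact const_on_conn he' ((hcb (f x)).reach rfl hxy.symm)
    have h2 : ∀ v, f' v = f v := fun v => good_shift hf' hf h1 (Nat.zero_le _)
    have h3 : (HS σ a).Adj u0 v0 := by
      rw [HS_adj hσ]
      exact ⟨fun ⟨n, hn, _⟩ => hwhite n hn, huv⟩
    have h4 := he' u0 v0 h3
    rw [h2, h2, hfu0, hfv0] at h4
    omega
  · rintro ⟨g, hg, k0, hk⟩
    have h1 : ∀ u v, g u = g v → k0 ≤ g u → f u = f v := by
      intro u v huv hu
      exact const_on_conn hgb ((hk (g u) hu).reach rfl huv.symm)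
    obtain ⟨k1, hk1⟩ := good_eventually hf hg h1
    let K := max (max k0 k1) (N + 2)
    have hblock : ∀ k, K ≤ k → f ⁻¹' {k} = g ⁻¹' {k} := by
      intro k hk'
      ext v
      simp only [Set.mem_preimage, Set.mem_singleton_iff]
      constructor
      · intro hv
        rw [← hv]
        exact (hk1 v).1 (by omega)
      · intro hv
        rw [← hv]
        exact (hk1 v).2 (by omega)
    have hconn : ∀ k, K ≤ k → Conn (GS σ a) (f ⁻¹' {k}) := by
      intro k hk'
      rw [hblock k hk']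
      exact hk k (by omega)
    have hcl : ∀ k u v, (GS σ a).Adj u v → f u = k → f v = k := fun k u v huv hu =>
      (hgb u v huv).symm.trans hu
    have hHG : ∀ k, K ≤ k → ∀ x, f x = k → ∀ y, f y = k → (HS σ a).Adj x y → (GS σ a).Adj x y := by
      intro k hk' x hx y hy hxy
      rw [HS_adj hσ] at hxy
      rw [GS_adj]
      refine ⟨?_, hxy.2⟩
      by_contra hcon
      have hna : ∀ n, σ (pre a n) ≠ s(x, y) := by
        intro n hn
        cases hb : a n with
        | true => exact hcon ⟨n, hn, hb⟩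
        | false => exact hxy.1 ⟨n, hn, hb⟩
      obtain ⟨n0, hn0⟩ := agree hσ a (hf.finite k)
      apply hSafe n0 _ (List.prefix_refl _) x y hxy.2
      · rintro ⟨b, hb⟩
        rw [mem_ans_pre] at hb
        obtain ⟨m, _, hm, _⟩ := hb
        exact hna m hm
      · exact reach_mono (G := res (GS σ a) (f ⁻¹' {k}))
          (fun c d hcd => ((hn0 n0 le_rfl c hcd.2.1 d hcd.2.2).1).2 hcd.1) (hconn k hk' x hx y hy)
    refine ⟨⟨f, hf, hgb⟩, ⟨f, hf, K, fun k hk' => ⟨hconn k hk', ?_, hcl k, ?_⟩⟩, ?_, ?_⟩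
    · refine ⟨f ⁻¹' {k} ∩ h ⁻¹' {true}, f ⁻¹' {k} ∩ h ⁻¹' {false}, Set.inter_subset_left,
        Set.inter_subset_left, ?_, hhalf k (by omega) (by omega) true,
        hhalf k (by omega) (by omega) false, ?_, ?_⟩
      · rw [Set.disjoint_left]
        rintro x ⟨_, hx1⟩ ⟨_, hx2⟩
        have h3 : h x = true := hx1
        have h4 : h x = false := hx2
        rw [h3] at h4
        exact absurd h4 (by simp)
      · exact conn_congr (fun x hx y hy hxy => hHG k hk' x hx.1 y hy.1 hxy) (hch k true)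
      · exact conn_congr (fun x hx y hy hxy => hHG k hk' x hx.1 y hy.1 hxy) (hch k false)
    · intro u v huv hu hr
      obtain ⟨n0, hn0⟩ := agree hσ a (hf.finite k)
      have hv : f v = k := hcl k u v huv hu
      have hadj : (GA σ (pre a n0)).Adj u v := ((hn0 n0 le_rfl u hu v hv).1).2 huv
      apply not_reach_del ((hSafe n0).acyclic hσ) hadj
      exact reach_mono (G := res (del (GS σ a) u v) (f ⁻¹' {k})) (H := del (GA σ (pre a n0)) u v)
        (fun c d hcd => ⟨((hn0 n0 le_rfl c hcd.2.1 d hcd.2.2).1).2 hcd.1.1, hcd.1.2⟩) hr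
    · refine ⟨2 * K + 8, ?_⟩
      rintro p ⟨v, hfin, hcardv, _⟩ hp
      have hsub : comp (GS σ a) v ⊆ f ⁻¹' {f v} := by
        intro x hx
        exact (const_on_conn hgb hx).symm
      have h3 := Set.ncard_le_ncard hsub (hf.finite _)
      have h4 : (f ⁻¹' {f v}).ncard ≤ 2 * f v + 7 := by
        rcases hf (f v) with h5 | h5 <;> omega
      have hKv : K ≤ f v := by omega
      rw [comp_eq_block (hconn (f v) hKv) (hcl (f v)) rfl, hcard] at hcardv
      have h5 : (y (f v)).toNat ≤ 1 := by cases y (f v) <;> simp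
      have h6 : (p.1 - 6) / 2 = f v := by omega
      rw [h6]
      exact hcardv.symm
    · refine ⟨K, fun k hk' => ?_⟩
      obtain ⟨v, hv⟩ := hf.nonempty k
      have h3 := comp_eq_block (hconn k hk') (hcl k) hv
      obtain ⟨p, hp1, hp2⟩ := sig_of_comp (GS σ a) (v := v) (by rw [h3]; exact hf.finite k)
      exact ⟨p, hp1, by rw [hp2, h3, hcard]⟩

end Pool.Agent.R742.EG
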