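import Pool.Agent.R742.EG.Parity

/-!
# Plays of Seeker against a strategy of Hider
-/

set_option autoImplicit false

namespace Pool.Agent.R742.EG

open SimpleGraph

variable {τ : List (Sym2 ℕ) → Bool}

/-- the set of pairs answered green -/
def grS (τ : List (Sym2 ℕ) → Bool) (L : List (Sym2 ℕ)) : Set (Sym2 ℕ) :=
  {e | ∃ M, (M ++ [e]) <+: L ∧ τ (M ++ [e]) = true}

/-- the graph of green pairs -/
def Gr (τ : List (Sym2 ℕ) → Bool) (L : List (Sym2 ℕ)) : SimpleGraph ℕ :=
  SimpleGraph.fromEdgeSet (grS τ L)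

theorem Gr_adj {L : List (Sym2 ℕ)} {u v : ℕ} :
    (Gr τ L).Adj u v ↔ s(u, v) ∈ grS τ L ∧ u ≠ v := SimpleGraph.fromEdgeSet_adj _

/-- legal lists of picks -/
def LL (L : List (Sym2 ℕ)) : Prop := L.Nodup ∧ ∀ e ∈ L, ¬ e.IsDiag

theorem LL.sub {L L' : List (Sym2 ℕ)} (h : LL L') (hp : L <+: L') : LL L :=
  ⟨h.1.sublist hp.sublist, fun e he => h.2 e (hp.subset he)⟩

theorem LL.append {L : List (Sym2 ℕ)} (h : LL L) {e : Sym2 ℕ} (he : e ∉ L) (hd : ¬ e.IsDiag) :
    LL (L ++ [e]) := by
  refine ⟨?_, ?_⟩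
  · rw [List.nodup_append]
    refine ⟨h.1, List.nodup_singleton _, ?_⟩
    intro a ha b hb
    rw [List.mem_singleton] at hb
    subst hb
    rintro rfl
    exact he ha
  · intro x hx
    rw [List.mem_append, List.mem_singleton] at hx
    rcases hx with hx | rfl
    · exact h.2 x hx
    · exact hd

theorem grS_mem {L : List (Sym2 ℕ)} {e : Sym2 ℕ} (h : e ∈ grS τ L) : e ∈ L := by
  obtain ⟨M, hM, _⟩ := h
  exact hM.subset (by simp)

theorem grS_mono {L L' : List (Sym2 ℕ)} (h : L <+: L') : grS τ L ⊆ grS τ L' := by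
  rintro e ⟨M, hM, he⟩
  exact ⟨M, hM.trans h, he⟩

theorem Gr_mono {L L' : List (Sym2 ℕ)} (h : L <+: L') {u v : ℕ} (huv : (Gr τ L).Adj u v) :
    (Gr τ L').Adj u v := by
  rw [Gr_adj] at huv ⊢
  exact ⟨grS_mono h huv.1, huv.2⟩

theorem grS_stable {L L' : List (Sym2 ℕ)} (h : L <+: L') (hn : L'.Nodup) {e : Sym2 ℕ} (he : e ∈ L)
    (heg : e ∈ grS τ L') : e ∈ grS τ L := by
  obtain ⟨M, hM, ht⟩ := heg
  rcases Nat.lt_or_ge L.length (M ++ [e]).length with h1 | h1
  · exfalso
    have h2 : L <+: M ++ [e] := List.prefix_of_prefix_length_le h hM h1.le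
    have h3 : L <+: M := by
      refine List.prefix_of_prefix_length_le h2 (List.prefix_append _ _) ?_
      rw [List.length_append, List.length_singleton] at h1
      omega
    have h4 : (M ++ [e]).Nodup := hn.sublist hM.sublist
    rw [List.nodup_append] at h4
    exact h4.2.2 e (h3.subset he) e (by simp) rfl
  · exact ⟨M, List.prefix_of_prefix_length_le hM h h1, ht⟩

theorem grS_append_true {L : List (Sym2 ℕ)} {e : Sym2 ℕ} (h : τ (L ++ [e]) = true) :
    grS τ (L ++ [e]) = grS τ L ∪ {e} := by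
  ext x
  constructor
  · rintro ⟨M, hM, ht⟩
    rw [List.prefix_concat_iff] at hM
    rcases hM with hM | hM
    · right
      have := List.append_inj_right' hM rfl
      simpa using this
    · exact Or.inl ⟨M, hM, ht⟩
  · rintro (hx | rfl)
    · exact grS_mono (List.prefix_append _ _) hx
    · exact ⟨L, List.prefix_refl _, h⟩

theorem grS_append_false {L : List (Sym2 ℕ)} {e : Sym2 ℕ} (h : τ (L ++ [e]) = false) :
    grS τ (L ++ [e]) = grS τ L := by
  ext x
  constructor
  · rintro ⟨M, hM, ht⟩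
    rw [List.prefix_concat_iff] at hM
    rcases hM with hM | hM
    · rw [hM, h] at ht
      exact absurd ht (by simp)
    · exact ⟨M, hM, ht⟩
  · exact fun hx => grS_mono (List.prefix_append _ _) hx

/-- Hider never allows a white pair inside a green component -/
def Safe (τ : List (Sym2 ℕ) → Bool) : Prop :=
  ∀ L, LL L → ∀ u v, u ≠ v → s(u, v) ∉ L → ¬ (Gr τ L).Reachable u v

theorem Gr_append_true {L : List (Sym2 ℕ)} {u v : ℕ} (huv : u ≠ v)
    (h : τ (L ++ [s(u, v)]) = true) : AddEdge (Gr τ L) (Gr τ (L ++ [s(u, v)])) u v := by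
  intro a b
  rw [Gr_adj, Gr_adj, grS_append_true h]
  simp only [Set.union_singleton, Set.mem_insert_iff]
  rw [Sym2.eq_iff]
  constructor
  · rintro ⟨(h1 | h1), h2⟩
    · exact Or.inr h1
    · exact Or.inl ⟨h1, h2⟩
  · rintro (h1 | h1)
    · exact ⟨Or.inr h1.1, h1.2⟩
    · refine ⟨Or.inl h1, ?_⟩
      rcases h1 with ⟨rfl, rfl⟩ | ⟨rfl, rfl⟩
      · exact huv
      · exact huv.symm

theorem acyclic_addEdge {G G' : SimpleGraph ℕ} {u v : ℕ} (h : AddEdge G G' u v) (hG : G.IsAcyclic)
    (huv : ¬ G.Reachable u v) : G'.IsAcyclic := by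
  refine (hG.sup_edge_of_not_reachable huv).anti ?_
  intro a b hab
  rw [h a b] at hab
  rw [SimpleGraph.sup_adj, SimpleGraph.edge_adj]
  rcases hab with h1 | h1 | h1
  · exact Or.inl h1
  · refine Or.inr ⟨Or.inl h1, ?_⟩
    rintro rfl
    obtain ⟨rfl, rfl⟩ := h1
    exact huv (Reachable.refl _)
  · refine Or.inr ⟨Or.inr ⟨h1.1, h1.2⟩, ?_⟩
    rintro rfl
    obtain ⟨rfl, rfl⟩ := h1
    exact huv (Reachable.refl _)

theorem Safe.acyclic (hs : Safe τ) {L : List (Sym2 ℕ)} (hL : LL L) : (Gr τ L).IsAcyclic := by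
  induction L using List.reverseRecOn with
  | nil =>
    have : Gr τ [] = ⊥ := by
      ext u v
      rw [Gr_adj]
      simp only [SimpleGraph.bot_adj, iff_false, not_and]
      intro h
      exact absurd (grS_mem h) (by simp)
    rw [this]
    exact isAcyclic_bot
  | append_singleton L e ih =>
    have hL' : LL L := hL.sub (List.prefix_append _ _)
    have ih := ih hL'
    induction e using Sym2.ind with
    | _ u v =>
      have huv : u ≠ v := by
        have := hL.2 s(u, v) (by simp)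
        simpa using this
      have hnot : s(u, v) ∉ L := by
        intro hc
        have h4 := hL.1
        rw [List.nodup_append] at h4
        exact h4.2.2 _ hc _ (by simp) rfl
      cases ht : τ (L ++ [s(u, v)]) with
      | true => exact acyclic_addEdge (Gr_append_true huv ht) ih (hs L hL' u v huv hnot)
      | false =>
        have : Gr τ (L ++ [s(u, v)]) = Gr τ L := by
          unfold Gr
          rw [grS_append_false ht]
        rw [this]
        exact ih

/-- picks whose answer must be red -/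
theorem Safe.red_append (hs : Safe τ) {M : List (Sym2 ℕ)} {n u i : ℕ} (hM : LL M)
    (hin : i ≠ n) (hun : u ≠ n) (hiu : (Gr τ M).Reachable i u) (hne : i ≠ u)
    (hi : s(i, n) ∉ M) (hu : s(u, n) ∉ M) :
    LL (M ++ [s(i, n)]) ∧ Gr τ (M ++ [s(i, n)]) = Gr τ M ∧ s(u, n) ∉ M ++ [s(i, n)] := by
  have h1 : LL (M ++ [s(i, n)]) := hM.append hi (by simpa using hin)
  have h2 : s(u, n) ∉ M ++ [s(i, n)] := by
    rw [List.mem_append, List.mem_singleton, Sym2.eq_iff]
    rintro (h | ⟨h, _⟩ | ⟨h, _⟩)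
    · exact hu h
    · exact hne h.symm
    · exact hun h
  refine ⟨h1, ?_, h2⟩
  cases ht : τ (M ++ [s(i, n)]) with
  | true =>
    exfalso
    have hadd := Gr_append_true hin ht
    refine hs _ h1 u n hun h2 ?_
    have h3 : (Gr τ (M ++ [s(i, n)])).Reachable u i :=
      reach_mono (fun a b hab => (hadd a b).2 (Or.inl hab)) hiu.symm
    exact h3.trans (Adj.reachable ((hadd i n).2 (Or.inr (Or.inl ⟨rfl, rfl⟩))))
  | false =>
    unfold Gr
    rw [grS_append_false ht]

theorem Safe.red_list (hs : Safe τ) {M : List (Sym2 ℕ)} {n u : ℕ} (hM : LL M) (hun : u ≠ n)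
    (hu : s(u, n) ∉ M) : ∀ T : List ℕ, T.Nodup → (∀ i ∈ T, i ≠ n ∧ i ≠ u ∧ s(i, n) ∉ M ∧
      (Gr τ M).Reachable i u) →
    LL (M ++ T.map fun i => s(i, n)) ∧ Gr τ (M ++ T.map fun i => s(i, n)) = Gr τ M ∧
      s(u, n) ∉ M ++ T.map fun i => s(i, n) := by
  intro T
  induction T using List.reverseRecOn with
  | nil => intro _ _; simpa using ⟨hM, hu⟩
  | append_singleton T i ih =>
    intro hn hT
    have hnT : T.Nodup := hn.sublist (List.sublist_append_left _ _)
    obtain ⟨h1, h2, h3⟩ := ih hnT fun j hj => hT j (by simp [hj])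
    obtain ⟨hin, hiu, hiM, hreach⟩ := hT i (by simp)
    have h4 := hs.red_append (M := M ++ T.map fun i => s(i, n)) (u := u) (i := i) (n := n) h1 hin hun
      (by rw [h2]; exact hreach) hiu (by
        rw [List.mem_append, List.mem_map]
        rintro (h | ⟨j, hj, h⟩)
        · exact hiM h
        · rw [Sym2.eq_iff] at h
          rcases h with ⟨h, _⟩ | ⟨h, _⟩
          · subst h
            rw [List.nodup_append] at hn
            exact hn.2.2 _ hj _ (by simp) rfl
          · exact (hT j (by simp [hj])).1 h) h3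
    rw [List.map_append, List.map_singleton, ← List.append_assoc]
    exact ⟨h4.1, h4.2.1.trans h2, h4.2.2⟩

/-- the parity condition for the component of `n` -/
def POK (z : ℕ → Bool) (G : SimpleGraph ℕ) (n : ℕ) : Prop :=
  Odd (lv G n) ↔ z (comp G n).ncard = true

theorem comp_finite_of_bdd {G : SimpleGraph ℕ} {m : ℕ} (h : ∀ a b, G.Adj a b → b ≤ m) {v : ℕ}
    (hv : v ≤ m) : (comp G v).Finite := by
  refine (Set.finite_Iic m).subset fun x hx => ?_
  exact reach_ind (P := fun x => x ∈ Set.Iic m) hv (fun a b _ _ hab => h a b hab) hx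

theorem Gr_eq_of_prefix {L L' : List (Sym2 ℕ)} (h : L <+: L') (hn : L'.Nodup) {u v : ℕ}
    (hmem : s(u, v) ∈ L) (hadj : (Gr τ L').Adj u v) : (Gr τ L).Adj u v := by
  rw [Gr_adj] at hadj ⊢
  exact ⟨grS_stable h hn hmem hadj.1, hadj.2⟩

theorem process (hs : Safe τ) (z : ℕ → Bool) {n : ℕ} {L : List (Sym2 ℕ)}
    (hLn : ∀ e ∈ L, ∀ x ∈ e, x < n) : ∀ (m : ℕ) (R : Finset ℕ), R.card ≤ m →
    (∀ i ∈ R, i < n ∧ comp (Gr τ L) i ⊆ ↑R ∧ 3 ≤ (comp (Gr τ L) i).ncard) →
    ∀ M, LL M → L <+: M → (∀ e, e ∈ M ↔ e ∈ L ∨ ∃ i, i < n ∧ i ∉ R ∧ e = s(i, n)) →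
    ∃ M', LL M' ∧ M <+: M' ∧ (∀ e, e ∈ M' ↔ e ∈ L ∨ ∃ i, i < n ∧ e = s(i, n)) ∧
      (Gr τ M' = Gr τ M ∨ POK z (Gr τ M') n) := by
  classical
  intro m
  induction m with
  | zero =>
    intro R hR _ M hM hLM hmem
    have hR0 : R = ∅ := Finset.card_eq_zero.1 (by omega)
    subst hR0
    refine ⟨M, hM, List.prefix_refl _, fun e => ?_, Or.inl rfl⟩
    rw [hmem e]
    simp
  | succ m ih =>
    intro R hRm hR M hM hLM hmem
    rcases R.eq_empty_or_nonempty with hR0 | ⟨r, hr⟩
    · subst hR0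
      refine ⟨M, hM, List.prefix_refl _, fun e => ?_, Or.inl rfl⟩
      rw [hmem e]
      simp
    obtain ⟨hrn, hrR, hr3⟩ := hR r hr
    have hCfin : (comp (Gr τ L) r).Finite := R.finite_toSet.subset hrR
    have hmemn : ∀ e ∈ M, ∀ x ∈ e, x ≤ n := by
      intro e he x hx
      rcases (hmem e).1 he with h | ⟨i, hi, _, rfl⟩
      · exact (hLn e h x hx).le
      · rw [Sym2.mem_iff] at hx
        rcases hx with rfl | rfl
        · exact hi.le
        · exact le_refl _
    -- components of `r` in `Gr τ M`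
    have hcr : comp (Gr τ M) r = comp (Gr τ L) r := by
      apply Set.Subset.antisymm
      · intro x hx
        refine reach_ind (P := fun x => x ∈ comp (Gr τ L) r) (mem_comp_self _ _) ?_ hx
        intro a b _ ha hab
        have h1 : s(a, b) ∈ M := grS_mem (Gr_adj.1 hab).1
        rcases (hmem _).1 h1 with h | ⟨i, hi, hiR, h⟩
        · exact Reachable.trans ha (Adj.reachable (Gr_eq_of_prefix hLM hM.1 h hab))
        · exfalso
          have haR : a ∈ R := hrR ha
          rw [Sym2.eq_iff] at h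
          rcases h with ⟨rfl, _⟩ | ⟨rfl, _⟩
          · exact hiR haR
          · exact absurd (hR a haR).1 (lt_irrefl _)
      · exact fun x hx => reach_mono (fun a b hab => Gr_mono hLM hab) hx
    have hnr : ¬ (Gr τ M).Reachable r n := by
      intro hc
      have h1 : n ∈ comp (Gr τ M) r := hc
      rw [hcr] at h1
      exact absurd (hR n (hrR h1)).1 (lt_irrefl _)
    have hXfin : (comp (Gr τ M) n).Finite := by
      refine comp_finite_of_bdd (m := n) (fun a b hab => ?_) le_rfl
      exact hmemn _ (grS_mem (Gr_adj.1 hab).1) b (by simp)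
    obtain ⟨u, hu, hpar⟩ := parity_choice (hs.acyclic hM) hnr hXfin (by rw [hcr]; exact hCfin)
      (by rw [hcr]; exact hr3)
      (z ((comp (Gr τ M) n).ncard + (comp (Gr τ L) r).ncard) = true)
    have huC : u ∈ comp (Gr τ L) r := by rw [← hcr]; exact hu
    have huR : u ∈ R := hrR huC
    have hun : u < n := (hR u huR).1
    have hnotM : ∀ i ∈ R, s(i, n) ∉ M := by
      intro i hi hc
      rcases (hmem _).1 hc with h | ⟨j, _, hjR, h⟩
      · exact absurd (hLn _ h n (by simp)) (lt_irrefl _)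
      · rw [Sym2.eq_iff] at h
        rcases h with ⟨rfl, _⟩ | ⟨rfl, _⟩
        · exact hjR hi
        · exact absurd (hR i hi).1 (lt_irrefl _)
    let T : List ℕ := (hCfin.toFinset \ {u}).toList
    have hT : ∀ i, i ∈ T ↔ i ∈ comp (Gr τ L) r ∧ i ≠ u := by
      intro i
      simp [T]
    obtain ⟨hM1, hG1, hu1⟩ := hs.red_list (u := u) (n := n) hM hun.ne (hnotM u huR) T
      (Finset.nodup_toList _) (fun i hi => by
        rw [hT] at hi
        have hiR : i ∈ R := hrR hi.1
        refine ⟨(hR i hiR).1.ne, hi.2, hnotM i hiR, ?_⟩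
        have h1 : (Gr τ L).Reachable i u := Reachable.trans (Reachable.symm hi.1) huC
        exact reach_mono (fun a b hab => Gr_mono hLM hab) h1)
    let M1 := M ++ T.map fun i => s(i, n)
    let M2 := M1 ++ [s(u, n)]
    have hM2 : LL M2 := LL.append hM1 hu1 (by simpa using hun.ne)
    have hMM2 : M <+: M2 := (List.prefix_append _ _).trans (List.prefix_append _ _)
    let R' := R \ hCfin.toFinset
    have hmemR' : ∀ i, i ∈ R' ↔ i ∈ R ∧ i ∉ comp (Gr τ L) r := by
      intro i
      simp [R']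
    have hR'm : R'.card ≤ m := by
      have h1 : R' ⊂ R := by
        refine ⟨Finset.sdiff_subset, fun hc => ?_⟩
        exact ((hmemR' r).1 (hc hr)).2 (mem_comp_self _ _)
      have := Finset.card_lt_card h1
      omega
    have hR' : ∀ i ∈ R', i < n ∧ comp (Gr τ L) i ⊆ ↑R' ∧ 3 ≤ (comp (Gr τ L) i).ncard := by
      intro i hi
      rw [hmemR'] at hi
      obtain ⟨h1, h2, h3⟩ := hR i hi.1
      refine ⟨h1, fun x hx => ?_, h3⟩
      rw [Finset.mem_coe, hmemR']
      refine ⟨h2 hx, fun hc => hi.2 ?_⟩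
      exact Reachable.trans hc (Reachable.symm hx)
    have hmem2 : ∀ e, e ∈ M2 ↔ e ∈ L ∨ ∃ i, i < n ∧ i ∉ R' ∧ e = s(i, n) := by
      intro e
      simp only [M2, M1, List.mem_append, List.mem_singleton, List.mem_map]
      constructor
      · rintro ((h | ⟨i, hi, rfl⟩) | rfl)
        · rcases (hmem e).1 h with h | ⟨i, hi, hiR, rfl⟩
          · exact Or.inl h
          · exact Or.inr ⟨i, hi, fun hc => hiR ((hmemR' i).1 hc).1, rfl⟩
        · rw [hT] at hi
          exact Or.inr ⟨i, (hR i (hrR hi.1)).1, fun hc => ((hmemR' i).1 hc).2 hi.1, rfl⟩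
        · exact Or.inr ⟨u, hun, fun hc => ((hmemR' u).1 hc).2 huC, rfl⟩
      · rintro (h | ⟨i, hi, hiR, rfl⟩)
        · exact Or.inl (Or.inl ((hmem e).2 (Or.inl h)))
        · by_cases hiR2 : i ∈ R
          · have hiC : i ∈ comp (Gr τ L) r := by
              by_contra hc
              exact hiR ((hmemR' i).2 ⟨hiR2, hc⟩)
            by_cases hiu : i = u
            · subst hiu
              exact Or.inr rfl
            · exact Or.inl (Or.inr ⟨i, (hT i).2 ⟨hiC, hiu⟩, rfl⟩)
          · exact Or.inl (Or.inl ((hmem _).2 (Or.inr ⟨i, hi, hiR2, rfl⟩)))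
    obtain ⟨M', hM', hpre, hmem', hor⟩ := ih R' hR'm hR' M2 hM2 (hLM.trans hMM2) hmem2
    refine ⟨M', hM', hMM2.trans hpre, hmem', ?_⟩
    rcases hor with hor | hor
    · cases ht : τ (M1 ++ [s(u, n)]) with
      | true =>
        right
        have hadd := Gr_append_true hun.ne ht
        change AddEdge (Gr τ M1) (Gr τ M2) u n at hadd
        have hG1' : Gr τ M1 = Gr τ M := hG1
        rw [hG1'] at hadd
        have hadd' : AddEdge (Gr τ M) (Gr τ M2) n u := by
          intro a b
          rw [hadd a b]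
          tauto
        unfold POK
        rw [hor]
        rw [hpar _ hadd', comp_addEdge hadd', comp_eq_of_mem hu, hcr]
        rw [Set.ncard_union_eq _ hXfin hCfin]
        rw [Set.disjoint_left]
        intro x hx hx'
        apply hnr
        have h1 : x ∈ comp (Gr τ M) r := by rw [hcr]; exact hx'
        exact Reachable.trans h1 (Reachable.symm hx)
      | false =>
        left
        rw [hor]
        have h1 : Gr τ M2 = Gr τ M1 := by
          change Gr τ (M1 ++ [s(u, n)]) = Gr τ M1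
          unfold Gr
          rw [grS_append_false ht]
        rw [h1]
        exact hG1
    · exact Or.inr hor

end Pool.Agent.R742.EG
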