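import Pool.Agent.R742.EG.PartB

/-!
# Plays of Seeker against a strategy of Hider: the whole run
-/

set_option autoImplicit false

namespace Pool.Agent.R742.EG

open SimpleGraph

variable {τ : List (Sym2 ℕ) → Bool}

/-- `L` consists of all pairs below `n` except `{0,1}` -/
def Cov (n : ℕ) (L : List (Sym2 ℕ)) : Prop :=
  ∀ e, e ∈ L ↔ ¬ e.IsDiag ∧ (∀ x ∈ e, x < n) ∧ e ≠ s(0, 1)

theorem stage (hs : Safe τ) (z : ℕ → Bool) {n : ℕ} (hn : 2 ≤ n) {L : List (Sym2 ℕ)} (hL : LL L)
    (hC : Cov n L) : ∃ L', LL L' ∧ Cov (n + 1) L' ∧ L <+: L' ∧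
      ((∃ x, x < n ∧ x ∈ comp (Gr τ L') n ∧ 3 ≤ (comp (Gr τ L) x).ncard) → POK z (Gr τ L') n) := by
  classical
  have hLn : ∀ e ∈ L, ∀ x ∈ e, x < n := fun e he => ((hC e).1 he).2.1
  have hcn : ∀ x, x < n → comp (Gr τ L) x ⊆ Set.Iio n := by
    intro x hx y hy
    exact reach_ind (P := fun y => y ∈ Set.Iio n) hx
      (fun a b _ _ hab => hLn _ (grS_mem (Gr_adj.1 hab).1) b (by simp)) hy
  let small := (Finset.range n).filter fun x => (comp (Gr τ L) x).ncard ≤ 2
  let big := (Finset.range n).filter fun x => ¬ (comp (Gr τ L) x).ncard ≤ 2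
  let M := L ++ small.toList.map fun i => s(i, n)
  have hsm : ∀ i, i ∈ small ↔ i < n ∧ (comp (Gr τ L) i).ncard ≤ 2 := by
    intro i; simp [small]
  have hbg : ∀ i, i ∈ big ↔ i < n ∧ 3 ≤ (comp (Gr τ L) i).ncard := by
    intro i
    simp only [big, Finset.mem_filter, Finset.mem_range]
    constructor
    · rintro ⟨h1, h2⟩; exact ⟨h1, by omega⟩
    · rintro ⟨h1, h2⟩; exact ⟨h1, by omega⟩
  have hM : LL M := by
    refine ⟨?_, ?_⟩
    · rw [List.nodup_append]
      refine ⟨hL.1, ?_, ?_⟩
      · refine List.Nodup.map_on ?_ (Finset.nodup_toList _)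
        intro a ha b hb hab
        rw [Sym2.eq_iff] at hab
        rcases hab with ⟨h, _⟩ | ⟨h1, h2⟩
        · exact h
        · exact h1.trans h2
      · intro a ha b hb hab
        subst hab
        rw [List.mem_map] at hb
        obtain ⟨i, hi, rfl⟩ := hb
        exact absurd (hLn _ ha n (by simp)) (lt_irrefl _)
    · intro e he
      rw [List.mem_append, List.mem_map] at he
      rcases he with he | ⟨i, hi, rfl⟩
      · exact hL.2 e he
      · rw [Finset.mem_toList, hsm] at hi
        simpa using hi.1.ne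
  have hLM : L <+: M := List.prefix_append _ _
  have hR : ∀ i ∈ big, i < n ∧ comp (Gr τ L) i ⊆ ↑big ∧ 3 ≤ (comp (Gr τ L) i).ncard := by
    intro i hi
    have h1 := (hbg i).1 hi
    refine ⟨h1.1, fun x hx => ?_, h1.2⟩
    rw [Finset.mem_coe, hbg]
    exact ⟨hcn i h1.1 hx, by rw [comp_eq_of_mem hx]; exact h1.2⟩
  have hmem : ∀ e, e ∈ M ↔ e ∈ L ∨ ∃ i, i < n ∧ i ∉ big ∧ e = s(i, n) := by
    intro e
    simp only [M, List.mem_append, List.mem_map, Finset.mem_toList]
    constructor
    · rintro (h | ⟨i, hi, rfl⟩)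
      · exact Or.inl h
      · rw [hsm] at hi
        exact Or.inr ⟨i, hi.1, fun hc => by have := (hbg i).1 hc; omega, rfl⟩
    · rintro (h | ⟨i, hi, hib, rfl⟩)
      · exact Or.inl h
      · refine Or.inr ⟨i, (hsm i).2 ⟨hi, ?_⟩, rfl⟩
        by_contra hc
        exact hib ((hbg i).2 ⟨hi, by omega⟩)
  obtain ⟨L', hL', hpre, hmem', hor⟩ := process hs z hLn big.card big le_rfl hR M hM hLM hmem
  refine ⟨L', hL', ?_, hLM.trans hpre, ?_⟩
  · intro e
    rw [hmem' e]
    constructor
    · rintro (h | ⟨i, hi, rfl⟩)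
      · have h1 := (hC e).1 h
        exact ⟨h1.1, fun x hx => (h1.2.1 x hx).trans (Nat.lt_succ_self n), h1.2.2⟩
      · refine ⟨by simpa using hi.ne, ?_, ?_⟩
        · intro x hx
          rw [Sym2.mem_iff] at hx
          rcases hx with rfl | rfl <;> omega
        · intro hc
          rw [Sym2.eq_iff] at hc
          omega
    · rintro ⟨h1, h2, h3⟩
      induction e using Sym2.ind with
      | _ a b =>
        have ha := h2 a (by simp)
        have hb := h2 b (by simp)
        have hab : a ≠ b := by simpa using h1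
        by_cases han : a = n
        · subst han
          exact Or.inr ⟨b, by omega, Sym2.eq_swap⟩
        · by_cases hbn : b = n
          · subst hbn
            exact Or.inr ⟨a, by omega, rfl⟩
          · left
            rw [hC]
            refine ⟨h1, fun x hx => ?_, h3⟩
            rw [Sym2.mem_iff] at hx
            rcases hx with rfl | rfl <;> omega
  · rintro ⟨x, hxn, hx, hx3⟩
    rcases hor with hor | hor
    · exfalso
      rw [hor] at hx
      have h1 : x ∈ ({n} ∪ ↑small : Set ℕ) := by
        refine reach_ind (P := fun x => x ∈ ({n} ∪ ↑small : Set ℕ)) (by simp) ?_ hx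
        intro a b _ ha hab
        have h2 : s(a, b) ∈ M := grS_mem (Gr_adj.1 hab).1
        rcases (hmem _).1 h2 with h | ⟨i, hi, hib, h⟩
        · have han : a < n := hLn _ h a (by simp)
          have hbn : b < n := hLn _ h b (by simp)
          rcases ha with ha | ha
          · exact absurd ha han.ne
          · right
            rw [Finset.mem_coe, hsm] at ha ⊢
            refine ⟨hbn, ?_⟩
            have h3 : b ∈ comp (Gr τ L) a := Adj.reachable (Gr_eq_of_prefix hLM hM.1 h hab)
            rw [comp_eq_of_mem h3]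
            exact ha.2
        · rw [Sym2.eq_iff] at h
          rcases h with ⟨rfl, rfl⟩ | ⟨rfl, rfl⟩
          · left; rfl
          · right
            rw [Finset.mem_coe, hsm]
            refine ⟨hi, ?_⟩
            by_contra hc
            exact hib ((hbg _).2 ⟨hi, by omega⟩)
      rcases h1 with h1 | h1
      · exact absurd h1 hxn.ne
      · rw [Finset.mem_coe, hsm] at h1
        omega
    · exact hor

/-- the green graph of a run against `τ` -/
def GF (τ : List (Sym2 ℕ) → Bool) (q : ℕ → Sym2 ℕ) : SimpleGraph ℕ :=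
  SimpleGraph.fromEdgeSet (greenSet q fun n => τ (pre q (n + 1)))

theorem mem_grS_pre {q : ℕ → Sym2 ℕ} {m : ℕ} {e : Sym2 ℕ} :
    e ∈ grS τ (pre q m) ↔ ∃ n, n < m ∧ q n = e ∧ τ (pre q (n + 1)) = true := by
  constructor
  · rintro ⟨M, hM, ht⟩
    have h1 := prefix_pre q hM
    rw [List.length_append, List.length_singleton, pre_succ] at h1
    have h2 := List.append_inj' h1 rfl
    have h3 : M.length < m := by
      have := hM.length_le
      rw [List.length_append, List.length_singleton, pre_length] at this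
      omega
    refine ⟨M.length, h3, ?_, ?_⟩
    · simpa using h2.2.symm
    · rw [pre_succ, ← h1]
      exact ht
  · rintro ⟨n, hn, rfl, ht⟩
    refine ⟨pre q n, ?_, ?_⟩
    · rw [← pre_succ]
      exact pre_prefix q hn
    · rw [← pre_succ]
      exact ht

theorem mem_pre {α : Type} {q : ℕ → α} {m : ℕ} {e : α} : e ∈ pre q m ↔ ∃ n, n < m ∧ q n = e := by
  simp [pre]

theorem play_safe (hs : Safe τ) (z : ℕ → Bool) : ∃ q, Legal q ∧ whiteSet q = {s(0, 1)} ∧
    ∀ v, (comp (GF τ q) v).Finite → Fat (GF τ q) (comp (GF τ q) v) → POK z (GF τ q) v := by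
  classical
  have hstep : ∀ n L, 2 ≤ n ∧ LL L ∧ Cov n L → ∃ L', LL L' ∧ Cov (n + 1) L' ∧ L <+: L' ∧
      ((∃ x, x < n ∧ x ∈ comp (Gr τ L') n ∧ 3 ≤ (comp (Gr τ L) x).ncard) → POK z (Gr τ L') n) :=
    fun n L h => stage hs z h.1 h.2.1 h.2.2
  choose! nxt hnxt using hstep
  let F : ℕ → List (Sym2 ℕ) := fun k => Nat.rec [] (fun k L => nxt (k + 2) L) k
  have hF0 : F 0 = [] := rfl
  have hFs : ∀ k, F (k + 1) = nxt (k + 2) (F k) := fun k => rfl
  clear_value F
  have hFok : ∀ k, LL (F k) ∧ Cov (k + 2) (F k) := by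
    intro k
    induction k with
    | zero =>
      rw [hF0]
      refine ⟨⟨List.nodup_nil, by simp⟩, ?_⟩
      intro e
      induction e using Sym2.ind with
      | _ a b =>
        simp only [List.not_mem_nil, false_iff, not_and, not_not]
        intro h1 h2
        have ha := h2 a (by simp)
        have hb := h2 b (by simp)
        have hab : a ≠ b := by simpa using h1
        rw [Sym2.eq_iff]
        omega
    | succ k ih =>
      rw [hFs]
      have h1 := hnxt (k + 2) (F k) ⟨by omega, ih.1, ih.2⟩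
      exact ⟨h1.1, h1.2.1⟩
  have hFpre : ∀ k, F k <+: F (k + 1) := by
    intro k
    rw [hFs]
    exact (hnxt (k + 2) (F k) ⟨by omega, (hFok k).1, (hFok k).2⟩).2.2.1
  have hFlen : ∀ k, k ≤ (F k).length := by
    intro k
    induction k with
    | zero => omega
    | succ k ih =>
      have h1 : (F k).length ≠ (F (k + 1)).length := by
        intro hc
        have h2 := (hFpre k).eq_of_length hc
        have h3 : s(0, k + 2) ∈ F (k + 1) := by
          rw [(hFok (k + 1)).2]
          refine ⟨by simp, fun x hx => ?_, ?_⟩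
          · rw [Sym2.mem_iff] at hx
            rcases hx with rfl | rfl <;> omega
          · rw [Ne, Sym2.eq_iff]
            omega
        rw [← h2, (hFok k).2] at h3
        have := h3.2.1 (k + 2) (by simp)
        omega
      have := (hFpre k).length_le
      omega
  have : Nonempty (Sym2 ℕ) := ⟨s(0, 1)⟩
  obtain ⟨q, hq⟩ := exists_limit F hFpre
  have hqmem : ∀ m, q m ∈ F (m + 1) := by
    intro m
    rw [← hq (m + 1), mem_pre]
    exact ⟨m, by have := hFlen (m + 1); omega, rfl⟩
  have hFmono : ∀ m n, m ≤ n → F m <+: F n := by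
    intro m n h
    induction n with
    | zero => obtain rfl : m = 0 := by omega
              exact List.prefix_refl _
    | succ n ih =>
      rcases Nat.lt_or_ge m (n + 1) with h1 | h1
      · exact (ih (by omega)).trans (hFpre n)
      · obtain rfl : m = n + 1 := by omega
        exact List.prefix_refl _
  have hlegal : Legal q := by
    refine ⟨fun m => (hFok (m + 1)).1.2 _ (hqmem m), ?_⟩
    have key : ∀ i j, i < j → q i ≠ q j := by
      intro i j hij hc
      have h1 : (F (j + 1)).Nodup := (hFok (j + 1)).1.1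
      rw [← hq (j + 1)] at h1
      have hl : j < (F (j + 1)).length := by have := hFlen (j + 1); omega
      have h2 : pre q (j + 1) <+: pre q (F (j + 1)).length := pre_prefix q hl
      have h3 : (pre q (j + 1)).Nodup := h1.sublist h2.sublist
      rw [pre_succ, List.nodup_append] at h3
      exact h3.2.2 (q i) (mem_pre.2 ⟨i, hij, rfl⟩) (q j) (by simp) hc
    intro i j hij
    rcases lt_trichotomy i j with h | h | h
    · exact absurd hij (key i j h)
    · exact h
    · exact absurd hij.symm (key j i h)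
  have hwhite : whiteSet q = {s(0, 1)} := by
    ext e
    constructor
    · rintro ⟨h1, h2⟩
      by_contra hne
      rw [Set.mem_singleton_iff] at hne
      obtain ⟨m, hm⟩ : ∃ m, ∀ x ∈ e, x < m := by
        induction e using Sym2.ind with
        | _ a b =>
          refine ⟨a + b + 1, fun x hx => ?_⟩
          rw [Sym2.mem_iff] at hx
          rcases hx with rfl | rfl <;> omega
      have h3 : e ∈ F m := by
        rw [(hFok m).2]
        exact ⟨h1, fun x hx => (hm x hx).trans (by omega), hne⟩
      rw [← hq m, mem_pre] at h3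
      obtain ⟨n, _, h4⟩ := h3
      exact h2 n h4
    · intro he
      rw [Set.mem_singleton_iff] at he
      subst he
      refine ⟨by simp, fun n hn => ?_⟩
      have h1 := hqmem n
      rw [hn, (hFok (n + 1)).2] at h1
      exact h1.2.2 rfl
  refine ⟨q, hlegal, hwhite, fun v hfin hfat => ?_⟩
  let G := GF τ q
  have hGadj : ∀ a b, G.Adj a b ↔ s(a, b) ∈ greenSet q (fun n => τ (pre q (n + 1))) ∧ a ≠ b :=
    fun a b => SimpleGraph.fromEdgeSet_adj _
  have hGr : ∀ k a b, (Gr τ (F k)).Adj a b ↔ G.Adj a b ∧ a < k + 2 ∧ b < k + 2 := by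
    intro k a b
    rw [Gr_adj, hGadj, ← hq k, mem_grS_pre]
    constructor
    · rintro ⟨⟨m, hm, h1, h2⟩, hab⟩
      have h3 : s(a, b) ∈ F k := by rw [← hq k, mem_pre]; exact ⟨m, hm, h1⟩
      have h4 := (((hFok k).2 _).1 h3).2.1
      exact ⟨⟨⟨m, h1, h2⟩, hab⟩, h4 a (by simp), h4 b (by simp)⟩
    · rintro ⟨⟨⟨m, h1, h2⟩, hab⟩, ha, hb⟩
      have h3 : s(a, b) ∈ F k := by
        rw [(hFok k).2]
        refine ⟨by simpa using hab, fun x hx => ?_, ?_⟩
        · rw [Sym2.mem_iff] at hx
          rcases hx with rfl | rfl <;> assumption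
        · intro hc
          have h4 : s(0, 1) ∈ whiteSet q := by rw [hwhite]; rfl
          exact h4.2 m (h1.trans hc)
      rw [← hq k, mem_pre] at h3
      obtain ⟨m', hm', h4⟩ := h3
      have h5 : m = m' := hlegal.2 (h1.trans h4.symm)
      subst h5
      exact ⟨⟨m, hm', h1, h2⟩, hab⟩
  -- the largest element
  have hne : (comp G v).Nonempty := ⟨v, mem_comp_self _ _⟩
  obtain ⟨n, hnD, hmax⟩ : ∃ n ∈ comp G v, ∀ x ∈ comp G v, x ≤ n :=
    (Set.exists_max_image _ id hfin hne)
  obtain ⟨A, B, hA, hB, hAB, hA3, hB3, hcA, hcB⟩ := hfat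
  -- a connected set of size at least three which avoids `n`
  obtain ⟨A', hA', hA'3, hcA', hnA'⟩ : ∃ A' : Set ℕ, A' ⊆ comp G v ∧ 3 ≤ A'.ncard ∧ Conn G A' ∧
      n ∉ A' := by
    by_cases h : n ∈ A
    · exact ⟨B, hB, hB3, hcB, fun hc => Set.disjoint_left.1 hAB h hc⟩
    · exact ⟨A, hA, hA3, hcA, h⟩
  have hA'lt : ∀ x ∈ A', x < n := fun x hx =>
    lt_of_le_of_ne (hmax x (hA' hx)) fun hc => hnA' (hc ▸ hx)
  have hn2 : 2 ≤ n := by
    by_contra hc
    have h1 : A' ⊆ {0} := by
      intro x hx
      have := hA'lt x hx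
      rw [Set.mem_singleton_iff]
      omega
    have h2 := Set.ncard_le_ncard h1 (Set.toFinite _)
    rw [Set.ncard_singleton] at h2
    omega
  obtain ⟨k, rfl⟩ : ∃ k, n = k + 2 := ⟨n - 2, by omega⟩
  have hcompv : comp G (k + 2) = comp G v := comp_eq_of_mem hnD
  have hle : ∀ j a b, (Gr τ (F j)).Adj a b → G.Adj a b := fun j a b h => ((hGr j a b).1 h).1
  have hcomp' : comp (Gr τ (F (k + 1))) (k + 2) = comp G (k + 2) := by
    apply Set.Subset.antisymm
    · exact fun x hx => reach_mono (hle (k + 1)) hx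
    · intro x hx
      have h1 : x ∈ comp (Gr τ (F (k + 1))) (k + 2) ∧ x ∈ comp G (k + 2) := by
        refine reach_ind (P := fun x => x ∈ comp (Gr τ (F (k + 1))) (k + 2) ∧
          x ∈ comp G (k + 2)) ⟨mem_comp_self _ _, mem_comp_self _ _⟩ ?_ hx
        rintro a b _ ⟨ha1, ha2⟩ hab
        have hb2 : b ∈ comp G (k + 2) := Reachable.trans ha2 (Adj.reachable hab)
        rw [hcompv] at ha2
        have hb3 := hb2
        rw [hcompv] at hb3
        have h3 := hmax a ha2
        have h4 := hmax b hb3
        exact ⟨Reachable.trans ha1 (Adj.reachable ((hGr (k + 1) a b).2 ⟨hab, by omega, by omega⟩)),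
          hb2⟩
      exact h1.1
  obtain ⟨x, hx⟩ : A'.Nonempty := Set.nonempty_of_ncard_ne_zero (by omega)
  have h3 : 3 ≤ (comp (Gr τ (F k)) x).ncard := by
    have hsub : A' ⊆ comp (Gr τ (F k)) x := by
      intro y hy
      refine reach_mono (G := res G A') (fun a b hab => ?_) (hcA' x hx y hy)
      exact (hGr k a b).2 ⟨hab.1, hA'lt a hab.2.1, hA'lt b hab.2.2⟩
    refine hA'3.trans (Set.ncard_le_ncard hsub ?_)
    refine comp_finite_of_bdd (m := k + 1) (fun a b hab => ?_) ?_
    · have := ((hGr k a b).1 hab).2.2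
      omega
    · have := hA'lt x hx
      omega
  have hpok : POK z (Gr τ (F (k + 1))) (k + 2) := by
    have h4 := (hnxt (k + 2) (F k) ⟨by omega, (hFok k).1, (hFok k).2⟩).2.2.2
    rw [← hFs] at h4
    refine h4 ⟨x, hA'lt x hx, ?_, h3⟩
    rw [hcomp', hcompv]
    exact hA' hx
  have hlv : lv (Gr τ (F (k + 1))) (k + 2) = lv G v := by
    unfold lv
    congr 1
    ext w
    have hw1 : (Gr τ (F (k + 1))).Reachable (k + 2) w ↔ w ∈ comp G v := by
      rw [← hcompv, ← hcomp']
      exact Iff.rfl
    have hw2 : w ∈ comp G v → (Gr τ (F (k + 1))).neighborSet w = G.neighborSet w := by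
      intro hw
      ext y
      simp only [mem_neighborSet]
      rw [hGr (k + 1) w y]
      constructor
      · exact fun h => h.1
      · intro h
        have h5 := hmax w hw
        have h6 := hmax y (Reachable.trans hw (Adj.reachable h))
        exact ⟨h, by omega, by omega⟩
    constructor
    · rintro ⟨h5, h6⟩
      rw [hw1] at h5
      rw [hw2 h5] at h6
      exact ⟨h5, h6⟩
    · rintro ⟨h5, h6⟩
      refine ⟨hw1.2 h5, ?_⟩
      rw [hw2 h5]
      exact h6
  unfold POK at hpok ⊢
  rw [hlv, hcomp', hcompv] at hpok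
  exact hpok

/-- extension of a legal list to a run in which exactly one given pair stays white -/
theorem exists_run {L : List (Sym2 ℕ)} (hL : LL L) {e : Sym2 ℕ} (he : e ∉ L) (hd : ¬ e.IsDiag) :
    ∃ q, Legal q ∧ whiteSet q = {e} ∧ pre q L.length = L := by
  classical
  let R : Set (Sym2 ℕ) := {x | ¬ x.IsDiag ∧ x ≠ e ∧ x ∉ L}
  have hinf : R.Infinite := by
    have h1 : (Set.range fun n : ℕ => s(0, n + 1)).Infinite := by
      apply Set.infinite_range_of_injective
      intro a b hab
      simp only at hab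
      rw [Sym2.eq_iff] at hab
      omega
    have h2 : (Set.range fun n : ℕ => s(0, n + 1)) \ (({e} : Set (Sym2 ℕ)) ∪ {x | x ∈ L}) ⊆ R := by
      rintro x ⟨⟨n, rfl⟩, hx⟩
      rw [Set.mem_union, not_or] at hx
      exact ⟨by simp, hx.1, hx.2⟩
    refine (h1.diff ?_).mono h2
    exact (Set.finite_singleton _).union (List.finite_toSet L)
  have : Infinite R := hinf.to_subtype
  obtain ⟨φ⟩ : Nonempty (ℕ ≃ R) := nonempty_equiv_of_countable
  let q : ℕ → Sym2 ℕ := fun n => if h : n < L.length then L[n] else (φ (n - L.length)).1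
  have hq1 : ∀ n (h : n < L.length), q n = L[n] := fun n h => dif_pos h
  have hq2 : ∀ n, L.length ≤ n → q n = (φ (n - L.length)).1 := fun n h => dif_neg (by omega)
  have hpre : pre q L.length = L := by
    apply List.ext_getElem
    · simp [pre_length]
    · intro i h1 h2
      simp [pre, hq1 i h2]
  refine ⟨q, ⟨?_, ?_⟩, ?_, hpre⟩
  · intro n
    rcases Nat.lt_or_ge n L.length with h | h
    · rw [hq1 n h]
      exact hL.2 _ (List.getElem_mem _)
    · rw [hq2 n h]
      exact (φ _).2.1
  · have key : ∀ i j, i < j → q i ≠ q j := by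
      intro i j hij hc
      rcases Nat.lt_or_ge j L.length with h | h
      · rw [hq1 i (by omega), hq1 j h] at hc
        have := (List.Nodup.getElem_inj_iff hL.1).1 hc
        omega
      · rcases Nat.lt_or_ge i L.length with h' | h'
        · rw [hq1 i h', hq2 j h] at hc
          exact (φ (j - L.length)).2.2.2 (hc ▸ List.getElem_mem _)
        · rw [hq2 i h', hq2 j h] at hc
          have := φ.injective (Subtype.ext hc)
          omega
    intro i j hij
    rcases lt_trichotomy i j with h | h | h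
    · exact absurd hij (key i j h)
    · exact h
    · exact absurd hij.symm (key j i h)
  · ext x
    constructor
    · rintro ⟨h1, h2⟩
      by_contra hne
      by_cases hx : x ∈ L
      · obtain ⟨n, hn, h3⟩ := List.getElem_of_mem hx
        exact h2 n ((hq1 n hn).trans h3)
      · have hxR : x ∈ R := ⟨h1, hne, hx⟩
        apply h2 (φ.symm ⟨x, hxR⟩ + L.length)
        rw [hq2 _ (by omega)]
        simp
    · intro hx
      rw [Set.mem_singleton_iff] at hx
      subst hx
      refine ⟨hd, fun n hn => ?_⟩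
      rcases Nat.lt_or_ge n L.length with h | h
      · rw [hq1 n h] at hn
        exact he (hn ▸ List.getElem_mem _)
      · rw [hq2 n h] at hn
        exact (φ _).2.2.1 hn

theorem play_unsafe (hs : ¬ Safe τ) : ∃ q u v, Legal q ∧ u ≠ v ∧ whiteSet q = {s(u, v)} ∧
    (GF τ q).Reachable u v := by
  unfold Safe at hs
  push Not at hs
  obtain ⟨L, hL, u, v, huv, hnot, hr⟩ := hs
  obtain ⟨q, hq1, hq2, hq3⟩ := exists_run hL hnot (by simpa using huv)
  refine ⟨q, u, v, hq1, huv, hq2, ?_⟩
  refine reach_mono (fun a b hab => ?_) hr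
  rw [Gr_adj, ← hq3, mem_grS_pre] at hab
  obtain ⟨⟨n, _, h1, h2⟩, h3⟩ := hab
  unfold GF
  rw [SimpleGraph.fromEdgeSet_adj]
  exact ⟨⟨n, h1, h2⟩, h3⟩

end Pool.Agent.R742.EG
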