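import Pool.Agent.R742.EG.Block

/-!
# The property `SB B`
-/

set_option autoImplicit false

namespace Pool.Agent.R742.EG

open SimpleGraph

/-- isomorphic up to finitely many edges -/
def Eqv (G H : SimpleGraph ℕ) : Prop := ∃ (π : Equiv.Perm ℕ) (F : Set ℕ), F.Finite ∧
  ∀ u v, u ∉ F → (G.Adj u v ↔ H.Adj (π u) (π v))

theorem Eqv.refl (G : SimpleGraph ℕ) : Eqv G G := ⟨1, ∅, Set.finite_empty, fun _ _ _ => Iff.rfl⟩

theorem Eqv.symm {G H : SimpleGraph ℕ} (h : Eqv G H) : Eqv H G := by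
  obtain ⟨π, F, hF, h⟩ := h
  refine ⟨π.symm, π '' F, hF.image _, fun u v hu => ?_⟩
  have h1 : π.symm u ∉ F := fun hc => hu ⟨_, hc, by simp⟩
  have h2 := h (π.symm u) (π.symm v) h1
  rw [Equiv.apply_symm_apply, Equiv.apply_symm_apply] at h2
  exact h2.symm

theorem Eqv.trans {G H K : SimpleGraph ℕ} (h : Eqv G H) (h' : Eqv H K) : Eqv G K := by
  obtain ⟨π, F, hF, h⟩ := h
  obtain ⟨π', F', hF', h'⟩ := h'
  refine ⟨π.trans π', F ∪ π ⁻¹' F', hF.union (hF'.preimage π.injective.injOn), fun u v hu => ?_⟩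
  rw [Set.mem_union, not_or] at hu
  exact (h u v hu.1).trans (h' (π u) (π v) hu.2)

/-- the property -/
def SB (B : Set (SimpleGraph ℕ)) : Set (SimpleGraph ℕ) := {G | NS G ∧ (¬ KK G ∨ G ∉ B)}

structure BOK (B : Set (SimpleGraph ℕ)) : Prop where
  closed : ∀ G ∈ B, ∀ H, Eqv G H → H ∈ B
  tame : ∀ G ∈ B, Tame G

theorem SB_mono {B : Set (SimpleGraph ℕ)} (hB : BOK B) : IsMonotoneProperty (SB B) := by
  rintro G G' ⟨hns, hG⟩ hle
  refine ⟨hns.mono hle, ?_⟩
  by_contra hcon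
  push Not at hcon
  obtain ⟨hKK, hGB'⟩ := hcon
  have hGB : G ∉ B := by
    rcases hG with h | h
    · exact absurd (hKK.mono hle) h
    · exact h
  apply hGB
  refine hB.closed G' hGB' G ?_
  obtain ⟨g', hg', k0', hk'⟩ := hB.tame G' hGB'
  obtain ⟨g, hg, k0, hk⟩ := hns
  obtain ⟨f, hf, hfe⟩ := hKK
  have h1 : ∀ u v, g u = g v → k0 ≤ g u → f u = f v := by
    intro u v huv hu
    exact const_on_conn (G := G) (fun a b hab => hfe a b (hle hab))
      ((hk (g u) hu).reach rfl huv.symm)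
  have h2 : ∀ u v, g' u = g' v → k0' ≤ g' u → f u = f v := by
    intro u v huv hu
    exact const_on_conn hfe (((hk' (g' u) hu).1).reach rfl huv.symm)
  obtain ⟨k1, hk1⟩ := good_eventually hf hg h1
  obtain ⟨k1', hk1'⟩ := good_eventually hf hg' h2
  let K := max (max k1 k1') (max k0 k0')
  refine ⟨1, {v | f v < K}, hf.lt_finite K, fun u v hu => ?_⟩
  simp only [Equiv.Perm.one_apply]
  refine ⟨fun hadj => ?_, fun hadj => hle hadj⟩
  by_contra hnadj
  have hKu : K ≤ f u := not_lt.1 hu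
  have hfuv := hfe u v hadj
  have hb1 : ∀ w, g w = f u ↔ f w = f u := by
    intro w
    constructor
    · intro hw
      rw [← hw]
      exact (hk1 w).2 (by omega)
    · intro hw
      rw [← hw]
      exact (hk1 w).1 (by omega)
  have hb2 : ∀ w, g' w = f u ↔ f w = f u := by
    intro w
    constructor
    · intro hw
      rw [← hw]
      exact (hk1' w).2 (by omega)
    · intro hw
      rw [← hw]
      exact (hk1' w).1 (by omega)
  have h3 := hk (f u) (by omega) u ((hb1 u).2 rfl) v ((hb1 v).2 hfuv.symm)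
  have h4 := (hk' (f u) (by omega)).2.2.2 u v hadj ((hb2 u).2 rfl)
  apply h4
  refine reach_mono (G := res G (g ⁻¹' {f u})) (H := res (del G' u v) (g' ⁻¹' {f u}))
    (fun a b hab => ⟨⟨hle hab.1, fun hc => ?_⟩, ?_, ?_⟩) h3
  · rw [Sym2.eq_iff] at hc
    rcases hc with ⟨rfl, rfl⟩ | ⟨rfl, rfl⟩
    · exact hnadj hab.1
    · exact hnadj hab.1.symm
  · exact (hb2 a).2 ((hb1 a).1 hab.2.1)
  · exact (hb2 b).2 ((hb1 b).1 hab.2.2)

theorem reach_map {G H : SimpleGraph ℕ} {φ : ℕ → ℕ} (h : ∀ a b, G.Adj a b → H.Adj (φ a) (φ b))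
    {x y : ℕ} (hxy : G.Reachable x y) : H.Reachable (φ x) (φ y) :=
  reach_ind (P := fun y => H.Reachable (φ x) (φ y)) (Reachable.refl _)
    (fun a b _ ha hab => ha.trans (h a b hab).reachable) hxy

theorem Good.comp_perm {g : ℕ → ℕ} (hg : Good g) (π : Equiv.Perm ℕ) : Good (g ∘ π) := by
  intro k
  have h : (g ∘ π) ⁻¹' {k} = π.symm '' (g ⁻¹' {k}) := by
    rw [Equiv.image_eq_preimage_symm]
    rfl
  rw [h, Set.ncard_image_of_injective _ π.symm.injective]
  exact hg k

theorem conn_map {G H : SimpleGraph ℕ} (π : Equiv.Perm ℕ) {U : Set ℕ}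
    (h : ∀ a b, a ∈ U → b ∈ U → G.Adj a b → H.Adj (π a) (π b)) (hU : Conn G U) :
    Conn H (π '' U) := by
  rintro _ ⟨x, hx, rfl⟩ _ ⟨y, hy, rfl⟩
  exact reach_map (G := res G U) (H := res H (π '' U)) (fun a b hab => ⟨h a b hab.2.1 hab.2.2 hab.1, ⟨a, hab.2.1, rfl⟩,
    ⟨b, hab.2.2, rfl⟩⟩) (hU x hx y hy)

theorem pre_image_block (g : ℕ → ℕ) (π : Equiv.Perm ℕ) (k : ℕ) :
    (g ∘ π.symm) ⁻¹' {k} = π '' (g ⁻¹' {k}) := by
  rw [Equiv.image_eq_preimage_symm]
  rfl

theorem tame_eqv {G H : SimpleGraph ℕ} (h : Eqv G H) (hG : Tame G) : Tame H := by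
  obtain ⟨π, F, hF, h⟩ := h
  obtain ⟨g, hg, k0, hk⟩ := hG
  obtain ⟨m, hm⟩ := (hF.image g).bddAbove
  refine ⟨g ∘ π.symm, hg.comp_perm _, max k0 (m + 1), fun k hk' => ?_⟩
  obtain ⟨h1, h2, h3, h4⟩ := hk k (by omega)
  have hnF : ∀ u, g u = k → u ∉ F := by
    intro u hu hc
    have := hm ⟨u, hc, rfl⟩
    omega
  rw [pre_image_block]
  refine ⟨conn_map π (fun a b ha _ hab => (h a b (hnF a ha)).1 hab) h1, ?_, ?_, ?_⟩
  · obtain ⟨A, B, hA, hB, hAB, hA3, hB3, hcA, hcB⟩ := h2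
    refine ⟨π '' A, π '' B, Set.image_mono hA, Set.image_mono hB, ?_, ?_, ?_, ?_, ?_⟩
    · exact Set.disjoint_image_of_injective π.injective hAB
    · rwa [Set.ncard_image_of_injective _ π.injective]
    · rwa [Set.ncard_image_of_injective _ π.injective]
    · exact conn_map π (fun a b ha _ hab => (h a b (hnF a (hA ha))).1 hab) hcA
    · exact conn_map π (fun a b ha _ hab => (h a b (hnF a (hB ha))).1 hab) hcB
  · intro u v huv hu
    have h5 : g (π.symm u) = k := hu
    have h6 := (h (π.symm u) (π.symm v) (hnF _ h5)).2 (by simpa using huv)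
    exact h3 _ _ h6 h5
  · intro u v huv hu hr
    have h5 : g (π.symm u) = k := hu
    have h6 := (h (π.symm u) (π.symm v) (hnF _ h5)).2 (by simpa using huv)
    refine h4 _ _ h6 h5 ?_
    refine reach_map (φ := π.symm) (fun a b hab => ?_) hr
    obtain ⟨⟨hab1, hab2⟩, ⟨a', ha', rfl⟩, ⟨b', hb', rfl⟩⟩ := hab
    simp only [Equiv.symm_apply_apply]
    refine ⟨⟨(h a' b' (hnF a' ha')).2 hab1, fun hc => hab2 ?_⟩, ha', hb'⟩
    have h7 := congrArg (Sym2.map π) hc
    simpa using h7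

theorem map_adj_iff (G : SimpleGraph ℕ) (π : Equiv.Perm ℕ) (u v : ℕ) :
    (G.map π.toEmbedding).Adj (π u) (π v) ↔ G.Adj u v := by
  rw [SimpleGraph.map_adj]
  constructor
  · rintro ⟨a, b, hab, ha, hb⟩
    obtain rfl := π.injective ha
    obtain rfl := π.injective hb
    exact hab
  · exact fun h => ⟨u, v, h, rfl, rfl⟩

theorem SB_iso {B : Set (SimpleGraph ℕ)} (hB : BOK B) : IsGraphProperty (SB B) := by
  rintro π G ⟨hns, hG⟩
  have hadj := map_adj_iff G π
  refine ⟨?_, ?_⟩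
  · obtain ⟨g, hg, k0, hk⟩ := hns
    refine ⟨g ∘ π.symm, hg.comp_perm _, k0, fun k hk' => ?_⟩
    rw [pre_image_block]
    exact conn_map π (fun a b _ _ hab => (hadj a b).2 hab) (hk k hk')
  · rcases hG with h | h
    · left
      rintro ⟨f, hf, hfe⟩
      exact h ⟨f ∘ π, hf.comp_perm _, fun u v huv => hfe _ _ ((hadj u v).2 huv)⟩
    · right
      intro hc
      exact h (hB.closed _ hc _ (Eqv.symm ⟨π, ∅, Set.finite_empty, fun u v _ => (hadj u v).symm⟩))

/-- parity data: the number of leaves of the component of `v` -/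
noncomputable def lv (G : SimpleGraph ℕ) (v : ℕ) : ℕ :=
  {w | G.Reachable v w ∧ (G.neighborSet w).ncard = 1}.ncard

/-- sizes and leaf parities of the finite components -/
def Sig (G : SimpleGraph ℕ) : Set (ℕ × Bool) :=
  {p | ∃ v, (comp G v).Finite ∧ (comp G v).ncard = p.1 ∧ (Odd (lv G v) ↔ p.2 = true)}

theorem sig_eqv {G H : SimpleGraph ℕ} (h : Eqv G H) :
    ∃ s0, ∀ p ∈ Sig G, s0 ≤ p.1 → p ∈ Sig H := by
  obtain ⟨π, F, hF, h⟩ := h
  obtain ⟨m, hm⟩ := (hF.image fun x => (comp G x).ncard).bddAbove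
  refine ⟨m + 1, ?_⟩
  rintro p ⟨v, hfin, hcard, hodd⟩ hp
  have hnF : ∀ u ∈ comp G v, u ∉ F := by
    intro u hu hc
    have h1 := hm ⟨u, hc, rfl⟩
    simp only at h1
    rw [comp_eq_of_mem hu] at h1
    omega
  have h1 : ∀ w, G.Reachable v w → H.Reachable (π v) (π w) := by
    intro w hw
    refine reach_ind (P := fun w => H.Reachable (π v) (π w)) (Reachable.refl _) ?_ hw
    intro a b hra ha hab
    exact ha.trans ((h a b (hnF a hra)).1 hab).reachable
  have h2 : ∀ w, H.Reachable (π v) w → G.Reachable v (π.symm w) := by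
    intro w hw
    refine reach_ind (P := fun w => G.Reachable v (π.symm w)) (by simp) ?_ hw
    intro a b _ ha hab
    refine ha.trans (Adj.reachable ?_)
    exact (h (π.symm a) (π.symm b) (hnF _ ha)).2 (by simpa using hab)
  have h3 : comp H (π v) = π '' comp G v := by
    ext w
    constructor
    · exact fun hw => ⟨π.symm w, h2 w hw, by simp⟩
    · rintro ⟨w, hw, rfl⟩
      exact h1 w hw
  refine ⟨π v, ?_, ?_, ?_⟩
  · rw [h3]
    exact hfin.image _
  · rw [h3, Set.ncard_image_of_injective _ π.injective]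
    exact hcard
  · have h4 : lv H (π v) = lv G v := by
      unfold lv
      rw [← Set.ncard_image_of_injective {w | G.Reachable v w ∧ (G.neighborSet w).ncard = 1}
        π.injective]
      congr 1
      ext w
      have h5 : ∀ x ∈ comp G v, H.neighborSet (π x) = π '' G.neighborSet x := by
        intro x hx
        ext y
        constructor
        · intro hy
          exact ⟨π.symm y, (h x (π.symm y) (hnF x hx)).2 (by simpa using hy), by simp⟩
        · rintro ⟨y, hy, rfl⟩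
          exact (h x y (hnF x hx)).1 hy
      constructor
      · rintro ⟨hw1, hw2⟩
        refine ⟨π.symm w, ⟨h2 w hw1, ?_⟩, by simp⟩
        have h6 := h5 (π.symm w) (h2 w hw1)
        rw [Equiv.apply_symm_apply] at h6
        rw [h6, Set.ncard_image_of_injective _ π.injective] at hw2
        exact hw2
      · rintro ⟨x, ⟨hx1, hx2⟩, rfl⟩
        refine ⟨h1 x hx1, ?_⟩
        rw [h5 x hx1, Set.ncard_image_of_injective _ π.injective]
        exact hx2
    rw [h4]
    exact hodd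

end Pool.Agent.R742.EG
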